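import Mathlib
import Pool.Agent.Shared.GroupUndec.Rabin

/-!
An Adian-Rabin family generated by an involution and one further element. All relators but one
are fixed, and the fixed relators present a perfect group normally generated by either generator.
-/

namespace Pool.Agent.Lib.MP_edf429_lc

open Function Monoid Pool.Agent.Shared.GroupUndec

/-- Ping-pong data for a family of elements with prescribed orders. -/
def PP {A : Type} [Group A] (d : ℕ → ℤ) (u : ℕ → A) : Prop :=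
  (∀ k, u k ^ d k = 1) ∧ ∃ X : ℕ → Set A, (∀ k, (X k).Nonempty) ∧
    (∀ i j, i ≠ j → ∀ y, y ∈ X i → y ∉ X j) ∧
    ∀ i j, i ≠ j → ∀ n : ℤ, ¬ d i ∣ n → ∀ y ∈ X j, u i ^ n * y ∈ X i

abbrev Cyc (d : ℤ) : Type := Multiplicative ℤ ⧸ Subgroup.zpowers (Multiplicative.ofAdd d)

def cycHom {A : Type} [Group A] (d : ℤ) (g : A) (h : g ^ d = 1) : Cyc d →* A :=
  QuotientGroup.lift _ (zpowersHom A g) (by
    rintro _ ⟨n, rfl⟩
    simp only [MonoidHom.mem_ker, map_zpow, zpowersHom_apply, toAdd_ofAdd, h, one_zpow])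

lemma cycHom_mk {A : Type} [Group A] (d : ℤ) (g : A) (h : g ^ d = 1) (n : Multiplicative ℤ) :
    cycHom d g h (QuotientGroup.mk n) = g ^ n.toAdd := rfl

lemma PP.inj {A : Type} [Group A] {d : ℕ → ℤ} {u : ℕ → A} (h : PP d u) :
    Injective (CoprodI.lift (M := fun k : ℕ => Cyc (d k)) fun k => cycHom (d k) (u k) (h.1 k)) := by
  obtain ⟨h1, X, hne, hdis, hpp⟩ := h
  apply CoprodI.lift_injective_of_ping_pong _ (Or.inl (by simp)) X hne
  · intro i j hij
    rw [Function.onFun, Set.disjoint_left]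
    exact fun y a b => hdis i j hij y a b
  · intro i j hij m hm
    obtain ⟨n, rfl⟩ := QuotientGroup.mk_surjective m
    rintro _ ⟨y, hy, rfl⟩
    simp only [cycHom_mk, smul_eq_mul]
    refine hpp i j hij _ ?_ y hy
    rintro ⟨k, hk⟩
    apply hm
    rw [QuotientGroup.eq_one_iff]
    refine ⟨k, ?_⟩
    apply Multiplicative.toAdd.injective
    simp [hk, mul_comm]

lemma amalg {A : Type} [Group A] {d : ℕ → ℤ} {u v : ℕ → A} (hu : PP d u) (hv : PP d v) :
    ∃ (H : Type) (_ : Group H) (L R : A →* H), Injective L ∧ ∀ k, L (u k) = R (v k) := by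
  let φ : ∀ _ : Bool, CoprodI (fun k : ℕ => Cyc (d k)) →* A := fun i =>
    cond i (CoprodI.lift fun k => cycHom (d k) (v k) (hv.1 k))
      (CoprodI.lift fun k => cycHom (d k) (u k) (hu.1 k))
  have hφ : ∀ i, Injective (φ i) := by
    rintro (_ | _)
    · exact hu.inj
    · exact hv.inj
  refine ⟨PushoutI φ, inferInstance, PushoutI.of (φ := φ) false, PushoutI.of (φ := φ) true,
    PushoutI.of_injective hφ false, fun k => ?_⟩
  have e1 := PushoutI.of_apply_eq_base φ false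
    (CoprodI.of (i := k) (QuotientGroup.mk (Multiplicative.ofAdd 1)))
  have e2 := PushoutI.of_apply_eq_base φ true
    (CoprodI.of (i := k) (QuotientGroup.mk (Multiplicative.ofAdd 1)))
  have := e1.trans e2.symm
  simpa [φ, cycHom_mk] using this

section defs
variable {G : Type*} [Group G]

def cV (c : G) (k : ℕ) (g : G) : G := (c ^ k)⁻¹ * g * c ^ k

def cU (a s : G) (k : ℕ) (g : G) : G := cV a 1 s * cV a (2 * k) g * cV a 1 s

/-- The fixed relations. Letters: `x i` for `i < N`, then `a, b, c, s`. -/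
structure Fix (N : ℕ) (R : List Word) (x : ℕ → G) : Prop where
  base : ∀ r ∈ R, ev x r = 1
  ss : x (N + 3) * x (N + 3) = 1
  r1 : x N * x N = cV (x (N + 2)) 1 (x (N + 3) * x (N + 2) * x (N + 3))
  r2 : cU (x N) (x (N + 3)) 2 (x (N + 3) * x N * x (N + 3)) =
    cV (x (N + 2)) 2 (x (N + 3) * x (N + 2) * x (N + 3))
  r3 : cU (x N) (x (N + 3)) 3 (x (N + 3) * x N * x (N + 3)) =
    cV (x (N + 2)) 3 (x (N + 3) * (x (N + 2) * x (N + 3) * x (N + 2)) * x (N + 3))
  r4 : cU (x N) (x (N + 3)) 4 (x (N + 1)) = cV (x (N + 2)) 4 (x (N + 3) * x (N + 2) * x (N + 3))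
  r6 : ∀ i < N, cU (x N) (x (N + 3)) (i + 6) (x i * x (N + 1)) =
    cV (x (N + 2)) (i + 6) (x (N + 3) * x (N + 2) * x (N + 3))

/-- The variable relation. -/
def Var (N : ℕ) (W : G) (x : ℕ → G) : Prop :=
  cU (x N) (x (N + 3)) 5 (W⁻¹ * ((x (N + 1))⁻¹ * (W * x (N + 1)))) =
    cV (x (N + 2)) 5 (x (N + 3) * x (N + 2) * x (N + 3))

lemma cV_eq_one {c g : G} {k : ℕ} : cV c k g = 1 ↔ g = 1 := by
  unfold cV
  constructor
  · intro h
    have : g = c ^ k * ((c ^ k)⁻¹ * g * c ^ k) * (c ^ k)⁻¹ := by group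
    rw [this, h]; group
  · rintro rfl; group

lemma cV_sq {a s : G} (hs : s * s = 1) : cV a 1 s * cV a 1 s = 1 := by
  unfold cV
  have : (a ^ 1)⁻¹ * s * a ^ 1 * ((a ^ 1)⁻¹ * s * a ^ 1) = (a ^ 1)⁻¹ * (s * s) * a ^ 1 := by group
  rw [this, hs]; group

lemma cU_eq_one {a s g : G} {k : ℕ} (hs : s * s = 1) : cU a s k g = 1 ↔ g = 1 := by
  unfold cU
  have h := cV_sq (a := a) hs
  constructor
  · intro e
    have : cV a (2 * k) g = cV a 1 s * (cV a 1 s * cV a (2 * k) g * cV a 1 s) * cV a 1 s := by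
      rw [← mul_assoc, ← mul_assoc, h, one_mul, mul_assoc, h, mul_one]
    rw [e, mul_one, h] at this
    exact cV_eq_one.mp this
  · rintro rfl
    rw [cV_eq_one.mpr rfl, mul_one, h]

lemma conj_s_eq_one {s g : G} (hs : s * s = 1) : s * g * s = 1 ↔ g = 1 := by
  constructor
  · intro h
    have : g = s * (s * g * s) * s := by
      rw [← mul_assoc, ← mul_assoc, hs, one_mul, mul_assoc, hs, mul_one]
    rw [this, h, mul_one, hs]
  · rintro rfl; rw [mul_one, hs]

variable {N : ℕ} {R : List Word} {x : ℕ → G}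

lemma Fix.coll_c (h : Fix N R x) (hc : x (N + 2) = 1) : ∀ i < N + 4, x i = 1 := by
  have hs := h.ss
  have e : x (N + 3) * x (N + 2) * x (N + 3) = 1 := by rw [hc, mul_one, hs]
  have ha : x N = 1 := by
    have := h.r2
    rw [e, cV_eq_one.mpr rfl, cU_eq_one hs, conj_s_eq_one hs] at this
    exact this
  have hs1 : x (N + 3) = 1 := by
    have := h.r3
    rw [ha, mul_one, hs, (cU_eq_one hs).mpr rfl, eq_comm, cV_eq_one, conj_s_eq_one hs, hc] at this
    simpa using this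
  have hb : x (N + 1) = 1 := by
    have := h.r4
    rw [e, cV_eq_one.mpr rfl, cU_eq_one hs] at this
    exact this
  intro i hi
  by_cases hi' : i < N
  · have := h.r6 i hi'
    rw [e, cV_eq_one.mpr rfl, cU_eq_one hs, hb, mul_one] at this
    exact this
  · have : i = N ∨ i = N + 1 ∨ i = N + 2 ∨ i = N + 3 := by omega
    rcases this with rfl | rfl | rfl | rfl <;> assumption

lemma Fix.coll_s (h : Fix N R x) (hs : x (N + 3) = 1) : x (N + 2) = 1 := by
  have h1 := h.r1
  have h2 := h.r2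
  simp only [hs, one_mul, mul_one, cU, cV, inv_mul_cancel] at h1 h2
  have e1 : x N * x N = x (N + 2) := by rw [h1]; group
  have e2 : x N = x (N + 2) := by
    have a1 : (x N ^ (2 * 2))⁻¹ * x N * x N ^ (2 * 2) = x N := by group
    have a2 : (x (N + 2) ^ 2)⁻¹ * x (N + 2) * x (N + 2) ^ 2 = x (N + 2) := by group
    rw [a1, a2] at h2; exact h2
  rw [e2] at e1
  simpa using e1

lemma Fix.coll_w (h : Fix N R x) (hv : Var N 1 x) : x (N + 2) = 1 := by
  unfold Var at hv
  rw [inv_one, one_mul, one_mul, inv_mul_cancel, (cU_eq_one h.ss).mpr rfl, eq_comm, cV_eq_one,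
    conj_s_eq_one h.ss] at hv
  exact hv

lemma Fix.coll_comm {A : Type*} [CommGroup A] {x : ℕ → A} (h : Fix N R x) : x (N + 2) = 1 := by
  have hs := h.ss
  have cv : ∀ (c g : A) k, cV c k g = g := fun c g k => by
    rw [cV, mul_comm (c ^ k)⁻¹, inv_mul_cancel_right]
  have cs : ∀ g : A, x (N + 3) * g * x (N + 3) = g := fun g => by
    rw [mul_comm (x (N + 3)), mul_assoc, hs, mul_one]
  have h1 := h.r1
  have h2 := h.r2
  simp only [cU, cv, cs] at h1 h2
  rw [h2] at h1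
  simpa using h1

/-- The second generator. -/
def tau (N : ℕ) (x : ℕ → G) : G := x (N + 3) * x (N + 2) * x N * (x (N + 3) * x (N + 2))⁻¹

lemma Fix.tau_sq (h : Fix N R x) : tau N x * tau N x = x (N + 2) := by
  have hs := h.ss
  have hs' : (x (N + 3))⁻¹ = x (N + 3) := inv_eq_of_mul_eq_one_right hs
  have : tau N x * tau N x =
      x (N + 3) * x (N + 2) * (x N * x N) * (x (N + 3) * x (N + 2))⁻¹ := by unfold tau; group
  rw [this, h.r1, cV, mul_inv_rev, hs']
  have : x (N + 3) * x (N + 2) * ((x (N + 2) ^ 1)⁻¹ * (x (N + 3) * x (N + 2) * x (N + 3)) *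
      x (N + 2) ^ 1) * ((x (N + 2))⁻¹ * x (N + 3)) =
      (x (N + 3) * x (N + 3)) * x (N + 2) * (x (N + 3) * x (N + 3)) := by group
  rw [this, hs, one_mul, mul_one]

lemma Fix.gen (h : Fix N R x) (K : Subgroup G) (hs : x (N + 3) ∈ K) (ht : tau N x ∈ K) :
    ∀ i < N + 4, x i ∈ K := by
  have hc : x (N + 2) ∈ K := h.tau_sq ▸ K.mul_mem ht ht
  have ha : x N ∈ K := by
    have : x N = (x (N + 3) * x (N + 2))⁻¹ * tau N x * (x (N + 3) * x (N + 2)) := by
      unfold tau; group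
    rw [this]
    exact K.mul_mem (K.mul_mem (K.inv_mem (K.mul_mem hs hc)) ht) (K.mul_mem hs hc)
  have hV : ∀ c g k, c ∈ K → (cV c k g ∈ K ↔ g ∈ K) := by
    intro c g k hc
    have := K.pow_mem hc k
    rw [cV, K.mul_mem_cancel_right this, K.mul_mem_cancel_left (K.inv_mem this)]
  have hU : ∀ g k, (cU (x N) (x (N + 3)) k g ∈ K ↔ g ∈ K) := by
    intro g k
    have := (hV _ _ 1 ha).mpr hs
    rw [cU, K.mul_mem_cancel_right this, K.mul_mem_cancel_left this, hV _ _ _ ha]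
  have hscs : ∀ k, cV (x (N + 2)) k (x (N + 3) * x (N + 2) * x (N + 3)) ∈ K := fun k =>
    (hV _ _ k hc).mpr (K.mul_mem (K.mul_mem hs hc) hs)
  have hb : x (N + 1) ∈ K := (hU _ 4).mp (h.r4 ▸ hscs 4)
  intro i hi
  by_cases hi' : i < N
  · have := (hU _ (i + 6)).mp (h.r6 i hi' ▸ hscs (i + 6))
    exact (K.mul_mem_cancel_right hb).mp this
  · have : i = N ∨ i = N + 1 ∨ i = N + 2 ∨ i = N + 3 := by omega
    rcases this with rfl | rfl | rfl | rfl <;> assumption

lemma map_cV {H : Type*} [Group H] (f : G →* H) (c g : G) (k : ℕ) :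
    f (cV c k g) = cV (f c) k (f g) := by simp [cV]

lemma map_cU {H : Type*} [Group H] (f : G →* H) (a s g : G) (k : ℕ) :
    f (cU a s k g) = cU (f a) (f s) k (f g) := by simp [cU, map_cV]

lemma cV_zpow (c g : G) (k : ℕ) (n : ℤ) : cV c k g ^ n = cV c k (g ^ n) := by
  have := conj_zpow (i := n) (a := (c ^ k)⁻¹) (b := g)
  simpa [cV] using this

lemma conj_s_zpow {s : G} (hs : s * s = 1) (g : G) (n : ℤ) : (s * g * s) ^ n = s * g ^ n * s := by
  have hs' : s⁻¹ = s := inv_eq_of_mul_eq_one_right hs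
  have := conj_zpow (i := n) (a := s) (b := g)
  rwa [hs'] at this

lemma cU_zpow {a s : G} (hs : s * s = 1) (g : G) (k : ℕ) (n : ℤ) :
    cU a s k g ^ n = cU a s k (g ^ n) := by
  rw [cU, conj_s_zpow (cV_sq hs), cV_zpow, cU]

end defs

theorem model {G : Type} [Group G] (a0 : ℕ → G) (N : ℕ) (R : List Word) (w : Word)
    (hR : ∀ r ∈ R, ∀ p ∈ r, p.1 < N) (hw : ∀ p ∈ w, p.1 < N) (h0 : ∀ r ∈ R, ev a0 r = 1)
    (h : ev a0 w ≠ 1) :
    ∃ (H : Type) (_ : Group H) (x : ℕ → H), Fix N R x ∧ Var N (ev x w) x ∧ x (N + 3) ≠ 1 ∧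
      ∀ j, N + 4 ≤ j → x j = 1 := by
  obtain ⟨G1, _, ι1, b1, P1, Q1, d1, p1, q1, hP1, hQ1⟩ := free_prod G
  obtain ⟨A, _, ι, a, P, Q, d, p, q, hP, hQ⟩ := free_prod (G1 × Multiplicative (ZMod 2))
  have nP1 : ∀ y, y ∈ Q1 → y ∉ P1 := fun y h1 h2 => Set.disjoint_left.mp d1 h2 h1
  have nQ1 : ∀ y, y ∈ P1 → y ∉ Q1 := fun y h1 h2 => Set.disjoint_left.mp d1 h1 h2
  have nP : ∀ y, y ∈ Q → y ∉ P := fun y h1 h2 => Set.disjoint_left.mp d h2 h1
  have nQ : ∀ y, y ∈ P → y ∉ Q := fun y h1 h2 => Set.disjoint_left.mp d h1 h2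
  have hb1 : ∀ n : ℤ, n ≠ 0 → b1 ^ n ≠ 1 := by
    intro n hn e
    have := hQ1 n hn 1 q1
    rw [e, one_mul] at this
    exact q1 this
  have hbQ : ∀ y, y ∉ Q1 → b1 * y ∈ Q1 := fun y hy => by simpa using hQ1 1 one_ne_zero y hy
  have hbQ' : ∀ y, y ∉ Q1 → b1⁻¹ * y ∈ Q1 := fun y hy => by simpa using hQ1 (-1) (by simp) y hy
  have good : ∀ g : G1, (∀ y, y ∉ Q1 → g * y ∈ P1) → ∀ n : ℤ, n ≠ 0 → g ^ n ≠ 1 := by
    intro g hg
    exact inf_order_of_maps g Q1 q1 fun y hy => ⟨nQ1 _ (hg y hy), fun e => p1 (e ▸ hg y hy)⟩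
  set W := ev a0 w with hW
  have hcomm : ∀ n : ℤ, n ≠ 0 → ((ι1 W)⁻¹ * (b1⁻¹ * (ι1 W * b1))) ^ n ≠ 1 := by
    apply good
    intro y hy
    have := hP1 W⁻¹ (inv_ne_one.mpr h) _ (nP1 _ (hbQ' _ (nQ1 _ (hP1 W h _ (nP1 _ (hbQ y hy))))))
    simpa [mul_assoc] using this
  have hxb : ∀ x : G, ∀ n : ℤ, n ≠ 0 → (ι1 x * b1) ^ n ≠ 1 := by
    intro x
    by_cases hx : x = 1
    · simpa [hx] using hb1
    · apply good
      intro y hy
      rw [mul_assoc]
      exact hP1 x hx _ (nP1 _ (hbQ y hy))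
  let κ : G1 →* A := ι.comp (MonoidHom.inl _ _)
  have pp1 : ∀ g : G1, (∀ n : ℤ, n ≠ 0 → g ^ n ≠ 1) →
      ∀ n : ℤ, n ≠ 0 → ∀ y, y ∉ P → κ g ^ n * y ∈ P := by
    intro g hg n hn y hy
    rw [← map_zpow]
    exact hP _ (fun e => hg n hn (congrArg Prod.fst e)) y hy
  let s : A := ι (1, Multiplicative.ofAdd 1)
  have hs : s * s = 1 := by
    have : (Multiplicative.ofAdd (1 : ZMod 2)) * Multiplicative.ofAdd 1 = 1 := by decide
    rw [← map_mul, Prod.mk_mul_mk, this, mul_one]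
    exact map_one ι
  have hs0 : (Multiplicative.ofAdd (1 : ZMod 2)) ≠ 1 := by decide
  have hsP : ∀ y, y ∉ P → s * y ∈ P := hP _ (fun e => hs0 (congrArg Prod.snd e))
  have hsn : ∀ n : ℤ, ¬ (2 : ℤ) ∣ n → s ^ n = s := by
    intro n hn
    obtain ⟨k, rfl⟩ : ∃ k, n = 2 * k + 1 := ⟨n / 2, by omega⟩
    rw [zpow_add, zpow_mul, zpow_ofNat, pow_two, hs, one_zpow, one_mul, zpow_one]
  have ppc : ∀ g : A, (∀ n : ℤ, n ≠ 0 → ∀ y, y ∉ Q → g ^ n * y ∈ Q) →
      ∀ n : ℤ, n ≠ 0 → ∀ y, y ∉ P → (s * g * s) ^ n * y ∈ P := by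
    intro g hg n hn y hy
    rw [conj_s_zpow hs, mul_assoc, mul_assoc]
    exact hsP _ (nP _ (hg n hn _ (nQ _ (hsP y hy))))
  have pasa : ∀ n : ℤ, n ≠ 0 → ∀ y, y ∉ Q → (a * s * a) ^ n * y ∈ Q := by
    have key : ∀ e : ℤ, e ≠ 0 → ∀ k : ℕ, ∀ y, y ∉ Q →
        ∃ z ∈ P, (a ^ e * s * a ^ e) ^ (k + 1) * y = a ^ e * z := by
      intro e he k y hy
      induction k with
      | zero => exact ⟨_, hsP _ (nP _ (hQ e he y hy)), by simp [mul_assoc]⟩
      | succ k ih =>
        obtain ⟨z, hz, e1⟩ := ih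
        refine ⟨_, hsP _ (nP _ (hQ (e + e) (by omega) z (nQ _ hz))), ?_⟩
        rw [pow_succ', mul_assoc, e1, zpow_add]
        simp [mul_assoc]
    intro n hn y hy
    rcases Int.natAbs_eq n with h' | h'
    · obtain ⟨z, hz, e1⟩ := key 1 one_ne_zero (n.natAbs - 1) y hy
      rw [show n.natAbs - 1 + 1 = n.natAbs by omega, zpow_one] at e1
      rw [h', zpow_natCast, e1]
      simpa using hQ 1 one_ne_zero z (nQ _ hz)
    · obtain ⟨z, hz, e1⟩ := key (-1) (by simp) (n.natAbs - 1) y hy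
      rw [show n.natAbs - 1 + 1 = n.natAbs by omega] at e1
      have e2 : (a * s * a)⁻¹ = a ^ (-1 : ℤ) * s * a ^ (-1 : ℤ) := by
        rw [mul_inv_rev, mul_inv_rev, inv_eq_of_mul_eq_one_right hs]; simp [mul_assoc]
      rw [h', zpow_neg, zpow_natCast, ← inv_pow, e2, e1]
      exact hQ (-1) (by simp) z (nQ _ hz)
  let dd : ℕ → ℤ
    | 0 => 2
    | _ + 1 => 0
  let gU : ℕ → A
    | 0 => s * a * s
    | 1 => s * a * s
    | 2 => κ b1
    | 3 => κ ((ι1 W)⁻¹ * (b1⁻¹ * (ι1 W * b1)))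
    | i + 4 => κ (ι1 (a0 i) * b1)
  have hgU : ∀ k, ∀ n : ℤ, n ≠ 0 → ∀ y, y ∉ P → gU k ^ n * y ∈ P := by
    rintro (_ | _ | _ | _ | i)
    · exact ppc a hQ
    · exact ppc a hQ
    · exact pp1 _ hb1
    · exact pp1 _ hcomm
    · exact pp1 _ (hxb _)
  let u : ℕ → A
    | 0 => s
    | 1 => a * a
    | k + 2 => cU a s (k + 2) (gU k)
  let gV : ℕ → A
    | 0 => s
    | 1 => s * a * s
    | 2 => s * a * s
    | 3 => s * (a * s * a) * s
    | _ + 4 => s * a * s
  have hgV : ∀ k, ∀ n : ℤ, ¬ dd k ∣ n → ∀ y, y ∉ P → gV k ^ n * y ∈ P := by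
    have z : ∀ n : ℤ, ¬ (0 : ℤ) ∣ n → n ≠ 0 := fun n hn e => hn (e ▸ dvd_rfl)
    rintro (_ | _ | _ | _ | i) n hn
    · intro y hy
      rw [show gV 0 = s from rfl, hsn n hn]
      exact hsP y hy
    · exact ppc a hQ n (z n hn)
    · exact ppc a hQ n (z n hn)
    · exact ppc _ pasa n (z n hn)
    · exact ppc a hQ n (z n hn)
  have hne : P.Nonempty := ⟨_, hsP 1 p⟩
  have hshift : ∀ i j : ℤ, i ≠ j → ∀ y, a ^ i * y ∈ P → a ^ j * y ∈ Q := by
    intro i j hij y h1
    have h3 := hQ (j - i) (by omega) _ (nQ _ h1)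
    rwa [zpow_sub, mul_assoc, inv_mul_cancel_left] at h3
  have hV : PP dd fun k => cV a k (gV k) := by
    refine ⟨?_, fun k => {y | a ^ (k : ℤ) * y ∈ P}, ?_, ?_, ?_⟩
    · rintro (_ | k)
      · rw [cV_zpow, cV_eq_one]
        simpa [gV, dd, zpow_ofNat, pow_two] using hs
      · simp [dd]
    · intro k
      obtain ⟨z, hz⟩ := hne
      exact ⟨(a ^ (k : ℤ))⁻¹ * z, by simpa using hz⟩
    · intro i j hij y h1 h2
      exact nP _ (hshift i j (by omega) y h1) h2
    · intro i j hij n hn y hy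
      have h1 := hgV i n hn _ (nP _ (hshift j i (by omega) y hy))
      simp only [Set.mem_ofPred_eq, cV_zpow]
      simpa [cV, mul_assoc] using h1
  let X : ℕ → Set A
    | 0 => P
    | 1 => {y | y ∈ Q ∧ a * y ∈ Q}
    | k + 2 => {y | a ^ (2 * ((k : ℤ) + 2) - 1) * (s * (a * y)) ∈ P}
  have hX2 : ∀ k y, y ∈ X (k + 2) → a * y ∈ P := by
    intro k y hy
    have h1 := hshift _ 0 (by omega) _ hy
    have h2 := hsP _ (nP _ h1)
    rwa [zpow_zero, one_mul, ← mul_assoc, hs, one_mul] at h2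
  have hX2' : ∀ k y, y ∈ X (k + 2) → y ∈ Q := by
    intro k y hy
    have := hshift 1 0 one_ne_zero y (by simpa using hX2 k y hy)
    simpa using this
  have hstep : ∀ k j : ℕ, k + 2 ≠ j → ∀ y ∈ X j, a ^ (2 * ((k : ℤ) + 2) - 1) * (s * (a * y)) ∈ Q := by
    rintro k (_ | _ | j) hj y hy
    · refine hQ _ (by omega) _ (nQ _ (hsP _ (nP _ ?_)))
      simpa using hQ 1 one_ne_zero y (nQ _ hy)
    · exact hQ _ (by omega) _ (nQ _ (hsP _ (nP _ hy.2)))
    · exact hshift _ _ (by omega) _ hy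
  have hU : PP dd u := by
    refine ⟨?_, X, ?_, ?_, ?_⟩
    · rintro (_ | k)
      · simpa [u, dd, zpow_ofNat, pow_two] using hs
      · simp [dd]
    · obtain ⟨z, hz⟩ := hne
      rintro (_ | _ | k)
      · exact ⟨z, hz⟩
      · refine ⟨a * z, by simpa using hQ 1 one_ne_zero z (nQ _ hz), ?_⟩
        have := hQ 2 two_ne_zero z (nQ _ hz)
        simpa [zpow_ofNat, pow_two, mul_assoc] using this
      · refine ⟨a⁻¹ * (s * ((a ^ (2 * ((k : ℤ) + 2) - 1))⁻¹ * z)), ?_⟩
        simp only [X, Set.mem_ofPred_eq, mul_inv_cancel_left]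
        rw [← mul_assoc s s, hs, one_mul, mul_inv_cancel_left]
        exact hz
    · rintro (_ | _ | i) (_ | _ | j) hij y h1 h2
      · exact hij rfl
      · exact nQ _ h1 h2.1
      · exact nQ _ h1 (hX2' _ _ h2)
      · exact nQ _ h2 h1.1
      · exact hij rfl
      · exact nQ _ (hX2 _ _ h2) h1.2
      · exact nQ _ h2 (hX2' _ _ h1)
      · exact nQ _ (hX2 _ _ h1) h2.2
      · exact nQ _ h1 (hstep i (j + 2) hij y h2)
    · rintro (_ | _ | i) j hij n hn y hy
      · rw [show u 0 = s from rfl, hsn n hn]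
        apply hsP
        rcases j with _ | _ | j
        · exact absurd rfl hij
        · exact nP _ hy.1
        · exact nP _ (hX2' _ _ hy)
      · have hn' : n ≠ 0 := fun e => hn (e ▸ dvd_rfl)
        have e1 : u 1 ^ n = a ^ (2 * n) := by
          rw [show u 1 = a * a from rfl, zpow_mul, zpow_ofNat, pow_two]
        have e2 : a * (a ^ (2 * n) * y) = a ^ (2 * n + 1) * y := by
          rw [← mul_assoc, ← zpow_one_add, add_comm]
        change u 1 ^ n * y ∈ Q ∧ a * (u 1 ^ n * y) ∈ Q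
        rw [e1, e2]
        rcases j with _ | _ | j
        · exact ⟨hQ _ (by omega) _ (nQ _ hy), hQ _ (by omega) _ (nQ _ hy)⟩
        · exact absurd rfl hij
        · have h1 : a ^ (1 : ℤ) * y ∈ P := by simpa using hX2 j y hy
          exact ⟨hshift 1 _ (by omega) y h1, hshift 1 _ (by omega) y h1⟩
      · have hn' : n ≠ 0 := fun e => hn (e ▸ dvd_rfl)
        have h1 := hgU i n hn' _ (nP _ (hstep i j hij y hy))
        change a ^ (2 * ((i : ℤ) + 2) - 1) * (s * (a * (cU a s (i + 2) (gU i) ^ n * y))) ∈ P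
        rw [cU_zpow hs]
        have e : a ^ (2 * ((i : ℤ) + 2) - 1) * (s * (a * (cU a s (i + 2) (gU i ^ n) * y))) =
            gU i ^ n * (a ^ (2 * ((i : ℤ) + 2) - 1) * (s * (a * y))) := by
          have e0 : a ^ (2 * (i + 2)) = a ^ (2 * ((i : ℤ) + 2)) := by
            rw [← zpow_natCast]; push_cast; rfl
          simp only [cU, cV, pow_one, e0, zpow_sub, zpow_one, mul_assoc, mul_inv_cancel_left]
          rw [← mul_assoc s s, hs, one_mul]
          simp only [inv_mul_cancel_left, mul_inv_cancel_left]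
        rw [e]
        exact h1
  obtain ⟨H, _, L, R', hL, hLR⟩ := amalg hU hV
  have hRs : R' s = L s := by simpa [u, gV, cV] using (hLR 0).symm
  let x : ℕ → H := fun i => if i < N then L (κ (ι1 (a0 i))) else if i = N then L a
    else if i = N + 1 then L (κ b1) else if i = N + 2 then R' a else
    if i = N + 3 then L s else 1
  have e0 : x N = L a := by simp [x]
  have e1 : x (N + 1) = L (κ b1) := by simp [x]
  have e2 : x (N + 2) = R' a := by simp [x]
  have e3 : x (N + 3) = L s := by simp [x]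
  have e4 : ∀ i < N, x i = L (κ (ι1 (a0 i))) := fun i hi => by simp [x, hi]
  have e5 : ∀ r : Word, (∀ p ∈ r, p.1 < N) → ev x r = L (κ (ι1 (ev a0 r))) := by
    intro r hr
    rw [map_ev _ ι1, map_ev _ κ, map_ev _ L]
    exact ev_congr hr e4
  refine ⟨H, inferInstance, x, ⟨?_, ?_, ?_, ?_, ?_, ?_, ?_⟩, ?_, ?_, ?_⟩
  · intro r hr
    rw [e5 r (hR r hr), h0 r hr]; simp
  · rw [e3, ← map_mul, hs, map_one]
  · have := hLR 1
    simp only [u, gV, map_mul, map_cV, hRs] at this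
    rw [e0, e2, e3, this]
  · have := hLR 2
    simp only [u, gU, gV, map_mul, map_cV, map_cU, hRs] at this
    rw [e0, e2, e3, ← this]
  · have := hLR 3
    simp only [u, gU, gV, map_mul, map_cV, map_cU, hRs] at this
    rw [e0, e2, e3, ← this]
  · have := hLR 4
    simp only [u, gU, gV, map_mul, map_cV, map_cU, hRs] at this
    rw [e0, e1, e2, e3, ← this]
  · intro i hi
    have := hLR (i + 6)
    simp only [u, gU, gV, map_mul, map_cV, map_cU, hRs] at this
    rw [e0, e1, e2, e3, e4 i hi, ← this]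
  · have := hLR 5
    simp only [u, gU, gV, map_mul, map_inv, map_cV, map_cU, hRs] at this
    rw [Var, e0, e1, e2, e3, e5 w hw, ← this]
  · rw [e3]
    intro e
    have h1 : s = 1 := hL (e.trans (map_one L).symm)
    have := hsP 1 p
    rw [h1, one_mul] at this
    exact p this
  · intro j hj
    simp only [x]
    rw [if_neg (by omega), if_neg (by omega), if_neg (by omega), if_neg (by omega),
      if_neg (by omega)]

/-! ### Words -/

def eqn (u v : Word) : Word := u ++ winv v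

def wU (N k : ℕ) (g : Word) : Word :=
  cj N 1 [(N + 3, true)] ++ cj N (2 * k) g ++ cj N 1 [(N + 3, true)]

def scs (N : ℕ) : Word := [(N + 3, true), (N + 2, true), (N + 3, true)]
def sas (N : ℕ) : Word := [(N + 3, true), (N, true), (N + 3, true)]

def fixRel (N : ℕ) (R : List Word) : List Word :=
  R ++ ([(N + 3, true), (N + 3, true)] :: eqn [(N, true), (N, true)] (cj (N + 2) 1 (scs N)) ::
    eqn (wU N 2 (sas N)) (cj (N + 2) 2 (scs N)) ::
    eqn (wU N 3 (sas N)) (cj (N + 2) 3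
      [(N + 3, true), (N + 2, true), (N + 3, true), (N + 2, true), (N + 3, true)]) ::
    eqn (wU N 4 [(N + 1, true)]) (cj (N + 2) 4 (scs N)) ::
    (List.range N).map fun i => eqn (wU N (i + 6) [(i, true), (N + 1, true)])
      (cj (N + 2) (i + 6) (scs N)))

def varRel (N : ℕ) (w : Word) : Word :=
  eqn (wU N 5 (winv w ++ (N + 1, false) :: (w ++ [(N + 1, true)]))) (cj (N + 2) 5 (scs N))

def tauW (N : ℕ) : Word :=
  [(N + 3, true), (N + 2, true), (N, true), (N + 2, false), (N + 3, false)]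

section words
variable {G : Type*} [Group G] (x : ℕ → G)

lemma ev_eqn (u v : Word) : ev x (eqn u v) = 1 ↔ ev x u = ev x v := by
  simp [eqn, mul_inv_eq_one]

lemma ev_cj' (c k : ℕ) (g : Word) : ev x (cj c k g) = cV (x c) k (ev x g) := ev_cj x c k g

lemma ev_wU (N k : ℕ) (g : Word) : ev x (wU N k g) = cU (x N) (x (N + 3)) k (ev x g) := by
  simp only [wU, ev_append, ev_cj', cU, ev_cons_true, ev_nil, mul_one]

lemma ev_scs (N : ℕ) : ev x (scs N) = x (N + 3) * x (N + 2) * x (N + 3) := by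
  simp [scs, mul_assoc]

lemma ev_sas (N : ℕ) : ev x (sas N) = x (N + 3) * x N * x (N + 3) := by
  simp [sas, mul_assoc]

lemma ev_tauW (N : ℕ) : ev x (tauW N) = tau N x := by
  simp [tauW, tau, mul_assoc]

lemma fix_iff (N : ℕ) (R : List Word) : (∀ r ∈ fixRel N R, ev x r = 1) ↔ Fix N R x := by
  simp only [fixRel, List.mem_append, List.mem_cons, List.mem_map, List.mem_range, or_imp,
    forall_and, forall_eq, forall_exists_index, and_imp, forall_apply_eq_imp_iff₂, ev_eqn, ev_wU,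
    ev_cj', ev_scs, ev_sas, ev_cons_true, ev_nil, mul_one]
  constructor
  · rintro ⟨h0, h1, h2, h3, h4, h5, h6⟩
    exact ⟨h0, h1, h2, h3, by simpa only [mul_assoc] using h4, h5, h6⟩
  · intro h
    exact ⟨h.base, h.ss, h.r1, h.r2, by simpa only [mul_assoc] using h.r3, h.r4, h.r6⟩

lemma var_iff (N : ℕ) (w : Word) : ev x (varRel N w) = 1 ↔ Var N (ev x w) x := by
  simp only [varRel, ev_eqn, ev_wU, ev_cj', ev_scs, ev_append, ev_winv, ev_cons_false,
    ev_cons_true, ev_nil, mul_one, Var]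

end words

lemma primrec_winv : Primrec winv :=
  Primrec.list_reverse.comp (Primrec.list_map Primrec.id
    (Primrec.pair (Primrec.fst.comp Primrec.snd)
      (Primrec.not.comp (Primrec.snd.comp Primrec.snd))).to₂)

lemma primrec_varRel (N : ℕ) : Primrec (varRel N) := by
  unfold varRel eqn wU
  refine Primrec.list_append.comp ?_ (Primrec.const _)
  refine Primrec.list_append.comp (Primrec.list_append.comp (Primrec.const _) ?_) (Primrec.const _)
  unfold cj
  refine Primrec.list_append.comp (Primrec.const _) (Primrec.list_append.comp ?_ (Primrec.const _))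
  exact Primrec.list_append.comp primrec_winv (Primrec.list_cons.comp (Primrec.const _)
    (Primrec.list_append.comp Primrec.id (Primrec.const _)))

/-- Substitution of words for letters. -/
def subst (L : List Word) (w : Word) : Word :=
  w.flatMap fun p => cond p.2 (L.getD p.1 []) (winv (L.getD p.1 []))

lemma ev_subst {G : Type*} [Group G] (x : ℕ → G) (L : List Word) (w : Word) :
    ev x (subst L w) = ev (fun j => ev x (L.getD j [])) w := by
  induction w with
  | nil => rfl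
  | cons p w ih =>
    have : subst L (p :: w) = cond p.2 (L.getD p.1 []) (winv (L.getD p.1 [])) ++ subst L w := by
      simp [subst]
    rw [this, ev_append, ih]
    rcases p with ⟨j, _ | _⟩ <;> simp

lemma primrec_subst : Primrec₂ subst := by
  have h : Primrec fun q : (List Word × Word) × (ℕ × Bool) => q.1.1.getD q.2.1 [] :=
    (Primrec.list_getD _).comp (Primrec.fst.comp Primrec.fst) (Primrec.fst.comp Primrec.snd)
  exact (Primrec.list_flatMap Primrec.snd
    (Primrec.cond (Primrec.snd.comp Primrec.snd) h (primrec_winv.comp h)).to₂).to₂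

lemma winv_letters {n : ℕ} {u : Word} (hu : ∀ p ∈ u, p.1 < n) : ∀ p ∈ winv u, p.1 < n := by
  intro p hp
  simp only [winv, List.mem_reverse, List.mem_map] at hp
  obtain ⟨q, hq, rfl⟩ := hp
  exact hu q hq

lemma subst_letters {n : ℕ} {L : List Word} (hL : ∀ u ∈ L, ∀ p ∈ u, p.1 < n) (w : Word) :
    ∀ p ∈ subst L w, p.1 < n := by
  have h : ∀ j, ∀ p ∈ L.getD j [], p.1 < n := by
    intro j
    rw [List.getD_eq_getElem?_getD]
    cases e : L[j]? with
    | none => simp
    | some u => exact hL u (List.mem_of_getElem? e)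
  intro p hp
  simp only [subst, List.mem_flatMap] at hp
  obtain ⟨⟨j, _ | _⟩, -, hq⟩ := hp
  · exact winv_letters (h j) p hq
  · exact h j p hq

end Pool.Agent.Lib.MP_edf429_lc
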