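import Mathlib
import Pool.Agent.Lib.MP_edf429_lc.Invol

/-!
Finitely many pairwise comaximal markings of the fixed perfect group, the Chinese remainder
theorem, and the diagonal argument.
-/

namespace Pool.Agent.Lib.MP_edf429_lc

open Function Pool.Agent.Shared.GroupUndec

/-! ### The fixed group -/

def relSet (N : ℕ) (R : List Word) : Set (FreeGroup ℕ) :=
  {g | ∃ r ∈ fixRel N R, g = ev FreeGroup.of r} ∪ {g | ∃ j, N + 4 ≤ j ∧ g = FreeGroup.of j}

abbrev HF (N : ℕ) (R : List Word) : Type := PresentedGroup (relSet N R)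

def yy (N : ℕ) (R : List Word) (j : ℕ) : HF N R := PresentedGroup.of j

variable {N : ℕ} {R : List Word}

lemma yy_fix : Fix N R (yy N R) := by
  rw [← fix_iff]
  intro r hr
  have : ev (yy N R) r = PresentedGroup.mk (relSet N R) (ev FreeGroup.of r) :=
    (map_ev _ (PresentedGroup.mk (relSet N R)) r).symm
  rw [this]
  exact PresentedGroup.one_of_mem (Or.inl ⟨r, hr, rfl⟩)

lemma yy_high (j : ℕ) (hj : N + 4 ≤ j) : yy N R j = 1 :=
  PresentedGroup.one_of_mem (Or.inr ⟨j, hj, rfl⟩)

lemma exists_hom {G : Type*} [Group G] {x : ℕ → G} (h : Fix N R x)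
    (h' : ∀ j, N + 4 ≤ j → x j = 1) : ∃ ψ : HF N R →* G, ∀ j, ψ (yy N R j) = x j := by
  refine ⟨PresentedGroup.toGroup (f := x) ?_, fun j => PresentedGroup.toGroup.of _⟩
  rintro _ (⟨r, hr, rfl⟩ | ⟨j, hj, rfl⟩)
  · rw [map_ev]
    simpa using (fix_iff x N R).mpr h r hr
  · simpa using h' j hj

lemma eq_top_of_mem (K : Subgroup (HF N R)) (h : ∀ j < N + 4, yy N R j ∈ K) : K = ⊤ := by
  rw [eq_top_iff, ← PresentedGroup.closure_range_of, Subgroup.closure_le]
  rintro _ ⟨j, rfl⟩
  by_cases hj : j < N + 4
  · exact h j hj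
  · have := yy_high (R := R) j (not_lt.mp hj)
    change yy N R j ∈ K
    rw [this]; exact K.one_mem

lemma Fix.map {G H : Type*} [Group G] [Group H] {x : ℕ → G} (h : Fix N R x) (f : G →* H) :
    Fix N R fun j => f (x j) := by
  rw [← fix_iff] at h ⊢
  intro r hr
  rw [← map_ev, h r hr, map_one]

lemma top_of_c (K : Subgroup (HF N R)) [K.Normal] (h : yy N R (N + 2) ∈ K) : K = ⊤ := by
  apply eq_top_of_mem
  intro j hj
  have := (yy_fix.map (QuotientGroup.mk' K)).coll_c ((QuotientGroup.eq_one_iff _).mpr h) j hj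
  exact (QuotientGroup.eq_one_iff _).mp this

lemma top_of_s (K : Subgroup (HF N R)) [K.Normal] (h : yy N R (N + 3) ∈ K) : K = ⊤ := by
  apply top_of_c
  have := (yy_fix.map (QuotientGroup.mk' K)).coll_s ((QuotientGroup.eq_one_iff _).mpr h)
  exact (QuotientGroup.eq_one_iff _).mp this

lemma perfect : commutator (HF N R) = ⊤ := by
  apply top_of_c
  have := (yy_fix.map (Abelianization.of (G := HF N R))).coll_comm
  exact (QuotientGroup.eq_one_iff _).mp this

/-! ### Chinese remainder theorem -/

lemma crt {F H O : Type*} [Group F] [Group H] [Finite O] (hH : commutator H = ⊤)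
    (θ : O → F →* H) (hs : ∀ o, Surjective (θ o))
    (hc : ∀ o o', o ≠ o' → (θ o').ker.map (θ o) = ⊤) (o : O) (h : H) :
    ∃ f, θ o f = h ∧ ∀ o', o' ≠ o → θ o' f = 1 := by
  classical
  have := Fintype.ofFinite O
  have key : ∀ T : Finset O, o ∉ T → (⨅ o' ∈ T, (θ o').ker).map (θ o) = ⊤ := by
    intro T
    induction T using Finset.induction_on with
    | empty =>
      intro _
      simpa [← MonoidHom.range_eq_map, MonoidHom.range_eq_top] using hs o
    | insert a T ha ih =>
      intro ho
      rw [Finset.mem_insert, not_or] at ho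
      have n1 : (⨅ o' ∈ T, (θ o').ker).Normal :=
        Subgroup.normal_iInf_normal fun _ => Subgroup.normal_iInf_normal fun _ => inferInstance
      rw [Finset.iInf_insert, eq_top_iff, ← hH, commutator_def]
      have := Subgroup.map_commutator (θ a).ker (⨅ o' ∈ T, (θ o').ker) (θ o)
      rw [hc o a ho.1, ih ho.2] at this
      rw [← this]
      exact Subgroup.map_mono (Subgroup.commutator_le_inf _ _)
  have h1 : h ∈ (⨅ o' ∈ Finset.univ.erase o, (θ o').ker).map (θ o) := by
    rw [key _ (by simp)]; trivial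
  obtain ⟨f, hf, rfl⟩ := h1
  refine ⟨f, rfl, fun o' ho' => ?_⟩
  simp only [SetLike.mem_coe, Subgroup.mem_iInf] at hf
  exact hf o' (by simp [ho'])

/-! ### Options -/

/-- An omitted generator and a nonzero character mod 2 on the other generators. -/
abbrev Opt (n : ℕ) : Type :=
  {o : Fin n × (Fin n → Bool) // o.2 o.1 = false ∧ ∃ j, o.2 j = true}

def mark (N : ℕ) (R : List Word) {n : ℕ} (o : Opt n) : FreeGroup (Fin n) →* HF N R :=
  FreeGroup.lift fun k => if k = o.1.1 then tau N (yy N R) else
    if o.1.2 k then yy N R (N + 3) else 1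

lemma mark_self {n : ℕ} (o : Opt n) : mark N R o (FreeGroup.of o.1.1) = tau N (yy N R) := by
  simp [mark]

lemma mark_true {n : ℕ} (o : Opt n) {k : Fin n} (hk : o.1.2 k = true) :
    mark N R o (FreeGroup.of k) = yy N R (N + 3) := by
  have : k ≠ o.1.1 := by
    rintro rfl
    rw [o.2.1] at hk; exact absurd hk (by simp)
  simp [mark, this, hk]

lemma mark_false {n : ℕ} (o : Opt n) {k : Fin n} (hk' : k ≠ o.1.1) (hk : o.1.2 k = false) :
    mark N R o (FreeGroup.of k) = 1 := by
  simp [mark, hk', hk]

lemma mark_surj {n : ℕ} (o : Opt n) : Surjective (mark N R o) := by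
  rw [← MonoidHom.range_eq_top]
  obtain ⟨j, hj⟩ := o.2.2
  exact eq_top_of_mem _ (yy_fix.gen _ ⟨_, mark_true o hj⟩ ⟨_, mark_self o⟩)

lemma mark_comax {n : ℕ} (o o' : Opt n) (h : o ≠ o') :
    (mark N R o').ker.map (mark N R o) = ⊤ := by
  have := Subgroup.Normal.map (inferInstance : (mark N R o').ker.Normal) _ (mark_surj (N := N) (R := R) o)
  by_cases hi : o.1.1 = o'.1.1
  · apply top_of_s
    have hχ : ∃ j, o.1.2 j ≠ o'.1.2 j := by
      by_contra hc
      push Not at hc
      exact h (Subtype.ext (Prod.ext hi (funext hc)))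
    obtain ⟨j, hj⟩ := hχ
    have hji : j ≠ o.1.1 := by
      rintro rfl
      rw [o.2.1, hi, o'.2.1] at hj
      exact hj rfl
    cases e : o.1.2 j with
    | true =>
      have e' : o'.1.2 j = false := by rw [e] at hj; simpa using hj.symm
      exact ⟨_, mark_false o' (hi ▸ hji) e', mark_true o e⟩
    | false =>
      have e' : o'.1.2 j = true := by rw [e] at hj; simpa using hj.symm
      obtain ⟨k, hk⟩ := o.2.2
      have hki : k ≠ o.1.1 := by
        rintro rfl
        rw [o.2.1] at hk; exact absurd hk (by simp)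
      cases e2 : o'.1.2 k with
      | false => exact ⟨_, mark_false o' (hi ▸ hki) e2, mark_true o hk⟩
      | true =>
        refine ⟨FreeGroup.of j * FreeGroup.of k, ?_, ?_⟩
        · change mark N R o' _ = 1
          rw [map_mul, mark_true o' e', mark_true o' e2]
          exact yy_fix.ss
        · rw [map_mul, mark_false o hji e, mark_true o hk, one_mul]
  · apply top_of_c
    refine ⟨FreeGroup.of o.1.1 * FreeGroup.of o.1.1, ?_, ?_⟩
    · change mark N R o' _ = 1
      rw [map_mul]
      cases e : o'.1.2 o.1.1 with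
      | true => rw [mark_true o' e]; exact yy_fix.ss
      | false => rw [mark_false o' hi e, one_mul]
    · rw [map_mul, mark_self]
      exact yy_fix.tau_sq

/-! ### Words over `Fin n` -/

def vals {n : ℕ} (w : List (Fin n × Bool)) : Word := w.map fun p : Fin n × Bool => (p.1.val, p.2)

def ext {G : Type*} [Group G] {n : ℕ} (g : Fin n → G) (k : ℕ) : G :=
  if h : k < n then g ⟨k, h⟩ else 1

lemma ext_val {G : Type*} [Group G] {n : ℕ} (g : Fin n → G) (k : Fin n) : ext g k = g k := by
  simp [ext]

lemma ev_vals {G : Type*} [Group G] {n : ℕ} (f : FreeGroup (Fin n) →* G)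
    (w : List (Fin n × Bool)) :
    ev (ext fun k => f (FreeGroup.of k)) (vals w) = f (FreeGroup.mk w) := by
  induction w with
  | nil => exact (map_one f).symm
  | cons p w ih =>
    have e : FreeGroup.mk (p :: w) = FreeGroup.mk [p] * FreeGroup.mk w := by
      rw [FreeGroup.mul_mk]; rfl
    have e' : vals (p :: w) = (p.1.val, p.2) :: vals w := rfl
    rw [e, e', map_mul, ← ih]
    rcases p with ⟨k, _ | _⟩
    · have : FreeGroup.mk [(k, false)] = (FreeGroup.of k)⁻¹ := rfl
      simp [this, ext_val]
    · have : FreeGroup.mk [(k, true)] = FreeGroup.of k := rfl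
      simp [this, ext_val]

lemma vals_letters {n : ℕ} (w : List (Fin n × Bool)) : ∀ p ∈ vals w, p.1 < n := by
  intro p hp
  obtain ⟨q, -, rfl⟩ := List.mem_map.mp hp
  exact q.1.2

lemma exists_vals {n : ℕ} (w : Word) (h : ∀ p ∈ w, p.1 < n) : ∃ w', vals (n := n) w' = w := by
  induction w with
  | nil => exact ⟨[], rfl⟩
  | cons p w ih =>
    obtain ⟨w', e⟩ := ih fun q hq => h q (List.mem_cons_of_mem _ hq)
    exact ⟨(⟨p.1, h p List.mem_cons_self⟩, p.2) :: w', by simp [vals] at e ⊢; exact e⟩

lemma exists_vals_list {n : ℕ} (P : List Word) (h : ∀ w ∈ P, ∀ p ∈ w, p.1 < n) :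
    ∃ P' : List (List (Fin n × Bool)), P'.map vals = P := by
  induction P with
  | nil => exact ⟨[], rfl⟩
  | cons w P ih =>
    obtain ⟨P', e⟩ := ih fun q hq => h q (List.mem_cons_of_mem _ hq)
    obtain ⟨w', e'⟩ := exists_vals w (h w List.mem_cons_self)
    exact ⟨w' :: P', by simp [e, e']⟩

/-- Parity of the number of letters marked by a list of bits. -/
def par (L : List Bool) (w : Word) : Bool := w.foldr (fun p b => xor (L.getD p.1 false) b) false

lemma primrec_par (L : List Bool) : Primrec (par L) := by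
  have hx : Primrec₂ xor := Primrec.dom_bool₂ _
  exact Primrec.list_foldr Primrec.id (Primrec.const false)
    (hx.comp ((Primrec.list_getD false).comp (Primrec.const L)
      (Primrec.fst.comp (Primrec.fst.comp Primrec.snd))) (Primrec.snd.comp Primrec.snd)).to₂

def Good {n : ℕ} (o : Opt n) (w : Word) : Prop :=
  (∀ p ∈ w, ¬ p.1 = o.1.1.val) ∧ par (List.ofFn o.1.2) w = false

lemma primrec_good {n : ℕ} (o : Opt n) : PrimrecPred (Good o) :=
  (PrimrecPred.forall_mem_list
    (Primrec.eq.comp Primrec.fst (Primrec.const o.1.1.val)).not).and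
    (Primrec.eq.comp (primrec_par _) (Primrec.const false))

lemma par_vals {n : ℕ} (χ : Fin n → Bool) (p : Fin n × Bool) (w : List (Fin n × Bool)) :
    par (List.ofFn χ) (vals (p :: w)) = xor (χ p.1) (par (List.ofFn χ) (vals w)) := by
  simp [par, vals]

lemma exists_good {n : ℕ} (hn : 3 ≤ n) (w : List (Fin n × Bool)) (i : Fin n)
    (hi : ∀ p ∈ w, p.1 ≠ i) : ∃ o : Opt n, Good o (vals w) := by
  obtain ⟨j, k, hj, hk, hjk⟩ : ∃ j k : Fin n, j ≠ i ∧ k ≠ i ∧ j ≠ k := by
    by_cases h0 : i.val = 0
    · exact ⟨⟨1, by omega⟩, ⟨2, by omega⟩, by simp [Fin.ext_iff, h0], by simp [Fin.ext_iff, h0],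
        by simp⟩
    · by_cases h1 : i.val = 1
      · exact ⟨⟨0, by omega⟩, ⟨2, by omega⟩, by simp [Fin.ext_iff, h1], by simp [Fin.ext_iff, h1],
          by simp⟩
      · exact ⟨⟨0, by omega⟩, ⟨1, by omega⟩, by simp [Fin.ext_iff]; omega,
          by simp [Fin.ext_iff]; omega, by simp⟩
  have hom : ∀ p ∈ vals w, ¬ p.1 = i.val := by
    intro p hp
    obtain ⟨q, hq, rfl⟩ := List.mem_map.mp hp
    exact fun e => hi q hq (Fin.ext e)
  have key : ∀ u : List (Fin n × Bool),
      par (List.ofFn fun l => xor (decide (l = j)) (decide (l = k))) (vals u) =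
        xor (par (List.ofFn fun l => decide (l = j)) (vals u))
          (par (List.ofFn fun l => decide (l = k)) (vals u)) := by
    intro u
    induction u with
    | nil => rfl
    | cons p u ih =>
      rw [par_vals, par_vals, par_vals, ih]
      cases decide (p.1 = j) <;> cases decide (p.1 = k) <;> simp
  cases e1 : par (List.ofFn fun l => decide (l = j)) (vals w) with
  | false => exact ⟨⟨(i, fun l => decide (l = j)), by simp [hj.symm], j, by simp⟩, hom, e1⟩
  | true =>
    cases e2 : par (List.ofFn fun l => decide (l = k)) (vals w) with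
    | false => exact ⟨⟨(i, fun l => decide (l = k)), by simp [hk.symm], k, by simp⟩, hom, e2⟩
    | true =>
      refine ⟨⟨(i, fun l => xor (decide (l = j)) (decide (l = k))), by simp [hj.symm, hk.symm],
        j, by simp [hjk]⟩, hom, ?_⟩
      change par (List.ofFn fun l => xor (decide (l = j)) (decide (l = k))) (vals w) = false
      rw [key, e1, e2]; rfl

lemma good_triv {G : Type*} [Group G] {n : ℕ} (o : Opt n) (g : Fin n → G) (S : G) (hS : S * S = 1)
    (hg : ∀ k, k ≠ o.1.1 → g k = cond (o.1.2 k) S 1) (w : List (Fin n × Bool))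
    (h : Good o (vals w)) : ev (ext g) (vals w) = 1 := by
  have key : ∀ u : List (Fin n × Bool), (∀ p ∈ u, p.1 ≠ o.1.1) →
      ev (ext g) (vals u) = cond (par (List.ofFn o.1.2) (vals u)) S 1 := by
    intro u hu
    induction u with
    | nil => rfl
    | cons p u ih =>
      have e' : vals (p :: u) = (p.1.val, p.2) :: vals u := rfl
      rw [par_vals, e', ev_cons, ih fun q hq => hu q (List.mem_cons_of_mem _ hq)]
      simp only [ext_val, hg p.1 (hu p List.mem_cons_self)]
      have hS' : S⁻¹ = S := inv_eq_of_mul_eq_one_right hS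
      cases p.2 <;> cases o.1.2 p.1 <;> cases par (List.ofFn o.1.2) (vals u) <;> simp [hS, hS']
  rw [key w, h.2]
  · rfl
  · intro p hp e
    exact h.1 (p.1.val, p.2) (List.mem_map.mpr ⟨p, hp, rfl⟩) (congrArg Fin.val e)

/-! ### The diagonal argument -/

lemma primrecPred_exists_fin {α O : Type*} [Primcodable α] [Finite O] (p : O → α → Prop)
    (hp : ∀ o, PrimrecPred (p o)) : PrimrecPred fun a => ∃ o, p o a := by
  classical
  have := Fintype.ofFinite O
  have key : ∀ T : Finset O, PrimrecPred fun a => ∃ o ∈ T, p o a := by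
    intro T
    induction T using Finset.induction_on with
    | empty =>
      exact (Primrec.eq.comp (Primrec.const 0) (Primrec.const 1)).of_eq fun a => by simp
    | insert o T _ ih => exact ((hp o).or ih).of_eq fun a => by simp
  exact (key Finset.univ).of_eq fun a => by simp

open Nat.Partrec in
lemma diag {O : Type} [Finite O] (f : List Word →. Word) (hf : Partrec f) (P0 : List Word)
    (LO : List O) (V : O → ℕ → Word) (hV : ∀ o, Primrec (V o)) (T : O → Word → Prop)
    (hT : ∀ o, PrimrecPred (T o)) :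
    ∃ e : O → ℕ, ∀ o, Halts (e o) ↔ ∃ w ∈ f (P0 ++ LO.map fun o => V o (e o)), T o w := by
  classical
  obtain ⟨idx, hidx⟩ := exists_injective_nat O
  let e : Code → O → ℕ := fun c o => Encodable.encode (Code.curry c (idx o))
  have he : ∀ o, Primrec fun c => e c o := fun o =>
    Primrec.encode.comp (Code.primrec₂_curry.comp Primrec.id (Primrec.const _))
  have hP : ∀ L : List O, Primrec fun c => L.map fun o => V o (e c o) := by
    intro L
    induction L with
    | nil => exact Primrec.const []
    | cons o L ih => exact Primrec.list_cons.comp ((hV o).comp (he o)) ih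
  let T' : ℕ × Word → Prop := fun q => ∃ o, q.1.unpair.1 = idx o ∧ T o q.2
  have hT' : PrimrecPred T' := primrecPred_exists_fin _ fun o =>
    (Primrec.eq.comp (Primrec.fst.comp (Primrec.unpair.comp Primrec.fst))
      (Primrec.const _)).and ((hT o).comp Primrec.snd)
  let F : Code → ℕ →. ℕ := fun c m => (f (P0 ++ LO.map fun o => V o (e c o))).bind
    fun w => Nat.rfind fun _ => (Part.some (decide (T' (m, w))) : Part Bool)
  have hF : Partrec₂ F := by
    refine Partrec.bind (hf.comp ((Primrec.list_append.comp (Primrec.const P0)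
      ((hP LO).comp Primrec.fst)).to_comp)) ?_
    refine Partrec.rfind ?_
    exact (hT'.decide.comp (Primrec.pair (Primrec.snd.comp (Primrec.fst.comp Primrec.fst))
      (Primrec.snd.comp Primrec.fst))).to_comp.partrec.to₂
  obtain ⟨c, hc⟩ := Code.fixed_point₂ hF
  refine ⟨e c, fun o => ?_⟩
  have e1 : Halts (e c o) ↔ (F c (Nat.pair (idx o) 0)).Dom := by
    simp only [Halts, e, Denumerable.ofNat_encode, Code.eval_curry, hc]
  have e2 : ∀ w, T' (Nat.pair (idx o) 0, w) ↔ T o w := by
    intro w
    simp only [T', Nat.unpair_pair]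
    exact ⟨fun ⟨o', h1, h2⟩ => hidx h1 ▸ h2, fun h => ⟨o, rfl, h⟩⟩
  rw [e1, Part.dom_iff_mem]
  simp only [F, Part.mem_bind_iff, Nat.mem_rfind, Part.mem_some_iff]
  constructor
  · rintro ⟨k, w, hw, h1, -⟩
    exact ⟨w, hw, (e2 w).mp (of_decide_eq_true h1.symm)⟩
  · rintro ⟨w, hw, h⟩
    exact ⟨0, w, hw, (decide_eq_true ((e2 w).mpr h)).symm, fun h => absurd h (Nat.not_lt_zero _)⟩

end Pool.Agent.Lib.MP_edf429_lc
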