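import Mathlib
import Pool.Agent.Lib.MP_edf429_lc.Options

/-!
Derivations of triviality of words under the hypothesis that a given word is trivial, using
endomorphisms of the presented group.
-/

namespace Pool.Agent.Lib.MP_edf429_lc

open Function Pool.Agent.Shared.GroupUndec

abbrev Step : Type := ℕ × Word × Word × Word × List Word

/-- Premises of a step; `b` consists of the relators and the hypothetical trivial word. -/
def prem (b : List Word × Word) (s : Step) : List Word :=
  if s.1 = 0 then [s.2.1 ++ s.2.2.2.1, s.2.2.1]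
  else if s.1 = 1 then [s.2.1 ++ (s.2.2.1 ++ s.2.2.2.1), s.2.2.1]
  else if s.1 = 2 then b.1.map (subst s.2.2.2.2) else []

def concl (b : List Word × Word) (s : Step) : Word :=
  if s.1 = 0 then s.2.1 ++ (s.2.2.1 ++ s.2.2.2.1)
  else if s.1 = 1 then s.2.1 ++ s.2.2.2.1
  else if s.1 = 2 then subst s.2.2.2.2 b.2
  else if s.1 = 3 then (b.2 :: b.1).getD s.2.1.length [] else s.2.1 ++ winv s.2.1

def Valid (b : List Word × Word) : List Step → Prop
  | [] => True
  | s :: L => (∀ p ∈ prem b s, ∃ c ∈ L.map (concl b), c = p) ∧ Valid b L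

def Der (b : List Word × Word) (v : Word) : Prop := ∃ L, Valid b L ∧ v ∈ L.map (concl b)

lemma Valid.append {b : List Word × Word} {L L' : List Step} (h : Valid b L) (h' : Valid b L') :
    Valid b (L ++ L') := by
  induction L with
  | nil => exact h'
  | cons s L ih =>
    refine ⟨fun p hp => ?_, ih h.2⟩
    obtain ⟨c, hc, e⟩ := h.1 p hp
    exact ⟨c, by simp only [List.append_eq, List.map_append, List.mem_append]; exact Or.inl hc, e⟩

lemma der_list {b : List Word × Word} (P : List Word) (h : ∀ p ∈ P, Der b p) :
    ∃ L, Valid b L ∧ ∀ p ∈ P, p ∈ L.map (concl b) := by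
  induction P with
  | nil => exact ⟨[], trivial, by simp⟩
  | cons p P ih =>
    obtain ⟨L, h1, h2⟩ := ih fun q hq => h q (List.mem_cons_of_mem _ hq)
    obtain ⟨L', h3, h4⟩ := h p List.mem_cons_self
    refine ⟨L' ++ L, h3.append h1, fun q hq => ?_⟩
    rw [List.map_append, List.mem_append]
    rcases List.mem_cons.mp hq with rfl | hq
    · exact Or.inl h4
    · exact Or.inr (h2 q hq)

lemma der_step {b : List Word × Word} (s : Step) (h : ∀ p ∈ prem b s, Der b p) :
    Der b (concl b s) := by
  obtain ⟨L, h1, h2⟩ := der_list _ h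
  exact ⟨s :: L, ⟨fun p hp => ⟨p, h2 p hp, rfl⟩, h1⟩, List.mem_cons_self⟩

section rules
variable {b : List Word × Word}

lemma Der.ins {x r y : Word} (h : Der b (x ++ y)) (hr : Der b r) : Der b (x ++ (r ++ y)) := by
  have := der_step (b := b) (0, x, r, y, []) (by simp [prem, h, hr])
  simpa [concl] using this

lemma Der.del {x r y : Word} (h : Der b (x ++ (r ++ y))) (hr : Der b r) : Der b (x ++ y) := by
  have := der_step (b := b) (1, x, r, y, []) (by simp [prem, h, hr])
  simpa [concl] using this

lemma Der.endo (u : List Word) (h : ∀ r ∈ b.1, Der b (subst u r)) : Der b (subst u b.2) := by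
  have := der_step (b := b) (2, [], [], [], u) (by simpa [prem] using h)
  simpa [concl] using this

lemma Der.ax {r : Word} (h : r ∈ b.2 :: b.1) : Der b r := by
  obtain ⟨i, hi, rfl⟩ := List.getElem_of_mem h
  have := der_step (b := b) (3, List.replicate i (0, true), [], [], []) (by simp [prem])
  simpa [concl, List.getD_eq_getElem?_getD, List.getElem?_eq_getElem hi] using this

lemma Der.canc (x : Word) : Der b (x ++ winv x) := by
  have := der_step (b := b) (4, x, [], [], []) (by simp [prem])
  simpa [concl] using this

lemma Der.of_mk_eq {v v' : Word} (e : FreeGroup.mk v = FreeGroup.mk v') : Der b v ↔ Der b v' := by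
  have step : ∀ {v v' : Word}, FreeGroup.Red.Step v v' → (Der b v ↔ Der b v') := by
    rintro _ _ @⟨x, y, i, c⟩
    have hc : Der b [(i, c), (i, !c)] := by simpa [winv] using Der.canc (b := b) [(i, c)]
    exact ⟨fun h => Der.del (r := [(i, c), (i, !c)]) (by simpa using h) hc,
      fun h => by simpa using Der.ins h hc⟩
  have red : ∀ {v v' : Word}, FreeGroup.Red v v' → (Der b v ↔ Der b v') := by
    intro v v' h
    induction h with
    | refl => rfl
    | tail _ h ih => exact ih.trans (step h)
  obtain ⟨z, h1, h2⟩ := FreeGroup.Red.exact.mp e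
  exact (red h1).trans (red h2).symm

lemma mk_winv (v : Word) : FreeGroup.mk (winv v) = (FreeGroup.mk v)⁻¹ := by
  rw [FreeGroup.inv_mk]; rfl

/-- The derivable words form a normal subgroup of the free group. -/
def derSub (b : List Word × Word) : Subgroup (FreeGroup ℕ) where
  carrier := {g | ∃ v, Der b v ∧ FreeGroup.mk v = g}
  one_mem' := ⟨[], by simpa [winv] using Der.canc (b := b) [], rfl⟩
  mul_mem' := by
    rintro _ _ ⟨u, hu, rfl⟩ ⟨v, hv, rfl⟩
    exact ⟨u ++ v, by simpa using Der.ins (x := u) (y := []) (by simpa using hu) hv,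
      FreeGroup.mul_mk.symm⟩
  inv_mem' := by
    rintro _ ⟨u, hu, rfl⟩
    exact ⟨winv u, by simpa using Der.del (x := []) (by simpa using Der.canc u) hu, mk_winv u⟩

instance : (derSub b).Normal := ⟨by
  rintro _ ⟨u, hu, rfl⟩ ⟨x⟩
  refine ⟨x ++ (u ++ winv x), Der.ins (Der.canc x) hu, ?_⟩
  rw [← FreeGroup.mul_mk, ← FreeGroup.mul_mk, mk_winv, mul_assoc]
  rfl⟩

lemma mem_derSub (v : Word) : FreeGroup.mk v ∈ derSub b ↔ Der b v :=
  ⟨fun ⟨_, h, e⟩ => (Der.of_mk_eq e).mp h, fun h => ⟨v, h, rfl⟩⟩

end rules

lemma ev_of (v : Word) : ev FreeGroup.of v = FreeGroup.mk v := by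
  induction v with
  | nil => rfl
  | cons p v ih =>
    have e : FreeGroup.mk (p :: v) = FreeGroup.mk [p] * FreeGroup.mk v := by
      rw [FreeGroup.mul_mk]; rfl
    rw [e, ← ih]
    rcases p with ⟨k, _ | _⟩
    · rw [ev_cons_false]; rfl
    · rw [ev_cons_true]; rfl

/-- Soundness. -/
lemma der_sound {G : Type*} [Group G] (x : ℕ → G) (b : List Word × Word)
    (h1 : ∀ r ∈ b.1, ev x r = 1)
    (h2 : ∀ y : ℕ → G, (∀ r ∈ b.1, ev y r = 1) → ev y b.2 = 1) {v : Word} (h : Der b v) :
    ev x v = 1 := by
  obtain ⟨L, hL, hv⟩ := h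
  induction L generalizing v with
  | nil => simp at hv
  | cons s L ih =>
    rcases List.mem_cons.mp hv with rfl | hv
    · have hp : ∀ p ∈ prem b s, ev x p = 1 := by
        intro p hp
        obtain ⟨c, hc, rfl⟩ := hL.1 p hp
        exact ih hL.2 hc
      unfold prem at hp
      unfold concl
      split_ifs at hp ⊢
      · simp only [List.mem_cons, List.not_mem_nil, or_false, forall_eq_or_imp, forall_eq,
          ev_append] at hp ⊢
        rw [hp.2, one_mul, hp.1]
      · simp only [List.mem_cons, List.not_mem_nil, or_false, forall_eq_or_imp, forall_eq,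
          ev_append] at hp ⊢
        rw [← hp.1, hp.2, one_mul]
      · rw [ev_subst]
        apply h2
        intro r hr
        rw [← ev_subst]
        exact hp _ (List.mem_map_of_mem hr)
      · rw [List.getD_eq_getElem?_getD]
        cases e : (b.2 :: b.1)[s.2.1.length]? with
        | none => rfl
        | some r =>
          rcases List.mem_cons.mp (List.mem_of_getElem? e) with rfl | hr
          · exact h2 x h1
          · exact h1 r hr
      · simp
    · exact ih hL.2 hv

/-! ### Computability -/

lemma primrec_prem : Primrec₂ prem := by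
  have t : Primrec fun q : (List Word × Word) × Step => q.2.1 := Primrec.fst.comp Primrec.snd
  have s2 : Primrec fun q : (List Word × Word) × Step => q.2.2 := Primrec.snd.comp Primrec.snd
  have x : Primrec fun q : (List Word × Word) × Step => q.2.2.1 := Primrec.fst.comp s2
  have r : Primrec fun q : (List Word × Word) × Step => q.2.2.2.1 :=
    Primrec.fst.comp (Primrec.snd.comp s2)
  have y : Primrec fun q : (List Word × Word) × Step => q.2.2.2.2.1 :=
    Primrec.fst.comp (Primrec.snd.comp (Primrec.snd.comp s2))
  have u : Primrec fun q : (List Word × Word) × Step => q.2.2.2.2.2 :=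
    Primrec.snd.comp (Primrec.snd.comp (Primrec.snd.comp s2))
  have two : ∀ {f g : (List Word × Word) × Step → Word}, Primrec f → Primrec g →
      Primrec fun q => [f q, g q] := fun hf hg =>
    Primrec.list_cons.comp hf (Primrec.list_cons.comp hg (Primrec.const []))
  exact Primrec.ite (Primrec.eq.comp t (Primrec.const 0))
    (two (Primrec.list_append.comp x y) r)
    (Primrec.ite (Primrec.eq.comp t (Primrec.const 1))
      (two (Primrec.list_append.comp x (Primrec.list_append.comp r y)) r)
      (Primrec.ite (Primrec.eq.comp t (Primrec.const 2))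
        (Primrec.list_map (Primrec.fst.comp Primrec.fst)
          (primrec_subst.comp (u.comp Primrec.fst) Primrec.snd).to₂) (Primrec.const [])))

lemma primrec_concl : Primrec₂ concl := by
  have t : Primrec fun q : (List Word × Word) × Step => q.2.1 := Primrec.fst.comp Primrec.snd
  have s2 : Primrec fun q : (List Word × Word) × Step => q.2.2 := Primrec.snd.comp Primrec.snd
  have x : Primrec fun q : (List Word × Word) × Step => q.2.2.1 := Primrec.fst.comp s2
  have r : Primrec fun q : (List Word × Word) × Step => q.2.2.2.1 :=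
    Primrec.fst.comp (Primrec.snd.comp s2)
  have y : Primrec fun q : (List Word × Word) × Step => q.2.2.2.2.1 :=
    Primrec.fst.comp (Primrec.snd.comp (Primrec.snd.comp s2))
  have u : Primrec fun q : (List Word × Word) × Step => q.2.2.2.2.2 :=
    Primrec.snd.comp (Primrec.snd.comp (Primrec.snd.comp s2))
  exact Primrec.ite (Primrec.eq.comp t (Primrec.const 0))
    (Primrec.list_append.comp x (Primrec.list_append.comp r y))
    (Primrec.ite (Primrec.eq.comp t (Primrec.const 1)) (Primrec.list_append.comp x y)
      (Primrec.ite (Primrec.eq.comp t (Primrec.const 2))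
        (primrec_subst.comp u (Primrec.snd.comp Primrec.fst))
        (Primrec.ite (Primrec.eq.comp t (Primrec.const 3))
          ((Primrec.list_getD []).comp (Primrec.list_cons.comp (Primrec.snd.comp Primrec.fst)
            (Primrec.fst.comp Primrec.fst)) (Primrec.list_length.comp x))
          (Primrec.list_append.comp x (primrec_winv.comp x)))))

lemma primrec_concls : Primrec₂ fun (b : List Word × Word) (L : List Step) => L.map (concl b) :=
  (Primrec.list_map Primrec.snd
    (primrec_concl.comp (Primrec.fst.comp Primrec.fst) Primrec.snd).to₂).to₂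

lemma primrecRel_sub : PrimrecRel fun P C : List Word => ∀ p ∈ P, ∃ c ∈ C, c = p :=
  PrimrecRel.forall_mem_list (PrimrecRel.exists_mem_list Primrec.eq).swap

lemma primrec_valid : PrimrecRel Valid := by
  classical
  let h : (List Word × Word) × List Step → Step × List Step × Bool → Bool := fun q t =>
    (decide (∀ p ∈ prem q.1 t.1, ∃ c ∈ t.2.1.map (concl q.1), c = p)) && t.2.2
  have hh : Primrec₂ h := by
    have h1 : PrimrecPred fun z : ((List Word × Word) × List Step) × Step × List Step × Bool =>
        ∀ p ∈ prem z.1.1 z.2.1, ∃ c ∈ z.2.2.1.map (concl z.1.1), c = p :=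
      primrecRel_sub.comp
        (primrec_prem.comp (Primrec.fst.comp Primrec.fst) (Primrec.fst.comp Primrec.snd))
        (primrec_concls.comp (Primrec.fst.comp Primrec.fst)
          (Primrec.fst.comp (Primrec.snd.comp Primrec.snd)))
    have h2 : Primrec fun z : ((List Word × Word) × List Step) × Step × List Step × Bool =>
        z.2.2.2 := Primrec.snd.comp (Primrec.snd.comp Primrec.snd)
    exact Primrec.and.comp h1.decide h2
  have hF := Primrec.list_rec Primrec.snd (Primrec.const true) hh
  refine (Primrec.eq.comp hF (Primrec.const true)).of_eq ?_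
  rintro ⟨b, L⟩
  have key : ∀ (q : (List Word × Word) × List Step) (L : List Step),
      (List.recOn L true fun s l IH => h q (s, l, IH) : Bool) = true ↔ Valid q.1 L := by
    intro q L
    induction L with
    | nil => simp [Valid]
    | cons s L ih =>
      simp only [h, Valid, Bool.and_eq_true, decide_eq_true_eq] at ih ⊢
      rw [ih]
  exact key (b, L) L

/-- The certificate check. -/
def Check (a : ℕ × List Word) (c : Word × List Step) : Prop :=
  (∀ p ∈ c.1, p.1 < a.1) ∧ Valid (a.2, c.1) c.2 ∧
    ∀ p ∈ (List.range a.1).map fun i => [(i, true)], ∃ v ∈ c.2.map (concl (a.2, c.1)), v = p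

lemma primrec_check : PrimrecRel Check := by
  have b : Primrec fun q : (ℕ × List Word) × Word × List Step => (q.1.2, q.2.1) :=
    (Primrec.snd.comp Primrec.fst).pair (Primrec.fst.comp Primrec.snd)
  refine PrimrecPred.and ?_ (PrimrecPred.and ?_ ?_)
  · exact (PrimrecRel.forall_mem_list (R := fun (p : ℕ × Bool) (n : ℕ) => p.1 < n)
      (Primrec.nat_lt.comp (Primrec.fst.comp Primrec.fst) Primrec.snd)).comp
      (Primrec.fst.comp Primrec.snd) (Primrec.fst.comp Primrec.fst)
  · exact primrec_valid.comp b (Primrec.snd.comp Primrec.snd)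
  · exact primrecRel_sub.comp
      (Primrec.list_map (Primrec.list_range.comp (Primrec.fst.comp Primrec.fst))
        (Primrec.list_cons.comp (Primrec.snd.pair (Primrec.const true)) (Primrec.const [])).to₂)
      (primrec_concls.comp b (Primrec.snd.comp Primrec.snd))

lemma exists_search {α β γ : Type*} [Primcodable α] [Primcodable β] [Primcodable γ]
    (C : α → β × γ → Prop) (hC : PrimrecRel C) : ∃ f : α →. β, Partrec f ∧
      ∀ a, (∃ c, C a c) → ∃ w ∈ f a, ∃ L, C a (w, L) := by
  classical
  let g : α → ℕ → Option β := fun a k =>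
    (Encodable.decode (α := β × γ) k).bind fun c => if C a c then some c.1 else none
  have hg : Primrec₂ g :=
    (Primrec.option_bind (Primrec.decode.comp Primrec.snd)
      (Primrec.ite (hC.comp (Primrec.fst.comp Primrec.fst) Primrec.snd)
        (Primrec.option_some.comp (Primrec.fst.comp Primrec.snd)) (Primrec.const none)).to₂).to₂
  refine ⟨fun a => Nat.rfindOpt (g a), Partrec.rfindOpt hg.to_comp, ?_⟩
  rintro a ⟨c, hc⟩
  have hd : (Nat.rfindOpt (g a)).Dom :=
    Nat.rfindOpt_dom.mpr ⟨Encodable.encode c, c.1, by
      simp only [g, Encodable.encodek, Option.bind_some, if_pos hc, Option.mem_def]⟩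
  refine ⟨_, Part.get_mem hd, ?_⟩
  obtain ⟨k, hk⟩ := Nat.rfindOpt_spec (Part.get_mem hd)
  simp only [g, Option.mem_def, Option.bind_eq_some_iff] at hk
  obtain ⟨c', -, h⟩ := hk
  split_ifs at h with h'
  exact ⟨c'.2, (Option.some.inj h) ▸ h'⟩

end Pool.Agent.Lib.MP_edf429_lc
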