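import Mathlib
import Pool.Agent.Lib.MP_edf429_lc.Deriv

/-!
Certificates for nontriviality in a finite permutation representation.
-/

namespace Pool.Agent.Lib.MP_edf429_lc

open Function Pool.Agent.Shared.GroupUndec

abbrev Tab : Type := List (List ℕ) × List (List ℕ)

def act (T : Tab) (p : ℕ × Bool) (a : ℕ) : ℕ := ((cond p.2 T.1 T.2).getD p.1 []).getD a a

def actW (T : Tab) (w : Word) (a : ℕ) : ℕ := w.foldr (act T) a

def pairs (n : ℕ) : List Word :=
  (List.range n).flatMap fun j => [[(j, true), (j, false)], [(j, false), (j, true)]]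

def Check2 (a : ℕ × List Word) (c : Word × ℕ × Tab) : Prop :=
  (∀ p ∈ c.1, p.1 < a.1) ∧ (∀ l ∈ c.2.2.1 ++ c.2.2.2, l.length ≤ c.2.1) ∧
    (∀ r ∈ a.2 ++ pairs a.1, ∀ i < c.2.1, actW c.2.2 r i = i) ∧ ∃ i < c.2.1, ¬ actW c.2.2 c.1 i = i

lemma primrec_actW : Primrec fun q : Tab × Word × ℕ => actW q.1 q.2.1 q.2.2 := by
  have h : Primrec fun z : (Tab × Word × ℕ) × (ℕ × Bool) × ℕ => act z.1.1 z.2.1 z.2.2 := by
    have l : Primrec fun z : (Tab × Word × ℕ) × (ℕ × Bool) × ℕ =>
        (cond z.2.1.2 z.1.1.1 z.1.1.2).getD z.2.1.1 [] :=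
      (Primrec.list_getD []).comp (Primrec.cond (Primrec.snd.comp (Primrec.fst.comp Primrec.snd))
        (Primrec.fst.comp (Primrec.fst.comp Primrec.fst))
        (Primrec.snd.comp (Primrec.fst.comp Primrec.fst)))
        (Primrec.fst.comp (Primrec.fst.comp Primrec.snd))
    have a : Primrec fun z : (Tab × Word × ℕ) × (ℕ × Bool) × ℕ => z.2.2 :=
      Primrec.snd.comp Primrec.snd
    exact (Primrec.option_getD.comp (Primrec.list_getElem?.comp l a) a).of_eq fun z => by
      simp [act, List.getD_eq_getElem?_getD]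
  exact Primrec.list_foldr (Primrec.fst.comp Primrec.snd) (Primrec.snd.comp Primrec.snd) h.to₂

lemma primrec_pairs : Primrec pairs := by
  have two : ∀ {β : Type} [Primcodable β] {f g : ℕ × ℕ → β}, Primrec f → Primrec g →
      Primrec fun q => [f q, g q] := fun hf hg =>
    Primrec.list_cons.comp hf (Primrec.list_cons.comp hg (Primrec.const []))
  have t : Primrec fun q : ℕ × ℕ => (q.2, true) := Primrec.snd.pair (Primrec.const true)
  have f : Primrec fun q : ℕ × ℕ => (q.2, false) := Primrec.snd.pair (Primrec.const false)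
  exact Primrec.list_flatMap Primrec.list_range (two (two t f) (two f t)).to₂

lemma primrec_check2 : PrimrecRel Check2 := by
  have fix : PrimrecRel fun (i : ℕ) (y : Word × Tab) => actW y.2 y.1 i = i :=
    Primrec.eq.comp (primrec_actW.comp ((Primrec.snd.comp Primrec.snd).pair
      ((Primrec.fst.comp Primrec.snd).pair Primrec.fst))) Primrec.fst
  have f1 : PrimrecRel fun (n : ℕ) (y : Word × Tab) => ∀ i < n, actW y.2 y.1 i = i :=
    (fix.forall_mem_list.comp (Primrec.list_range.comp Primrec.fst) Primrec.snd).of_eq (by simp)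
  have f2 : PrimrecRel fun (n : ℕ) (y : Word × Tab) => ∃ i < n, ¬ actW y.2 y.1 i = i :=
    (fix.not.exists_mem_list.comp (Primrec.list_range.comp Primrec.fst) Primrec.snd).of_eq
      (by simp)
  refine PrimrecPred.and ?_ (PrimrecPred.and ?_ (PrimrecPred.and ?_ ?_))
  · exact (PrimrecRel.forall_mem_list (R := fun (p : ℕ × Bool) (n : ℕ) => p.1 < n)
      (Primrec.nat_lt.comp (Primrec.fst.comp Primrec.fst) Primrec.snd)).comp
      (Primrec.fst.comp Primrec.snd) (Primrec.fst.comp Primrec.fst)
  · exact (PrimrecRel.forall_mem_list (R := fun (l : List ℕ) (n : ℕ) => l.length ≤ n)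
      (Primrec.nat_le.comp (Primrec.list_length.comp Primrec.fst) Primrec.snd)).comp
      (Primrec.list_append.comp (Primrec.fst.comp (Primrec.snd.comp (Primrec.snd.comp Primrec.snd)))
        (Primrec.snd.comp (Primrec.snd.comp (Primrec.snd.comp Primrec.snd))))
      (Primrec.fst.comp (Primrec.snd.comp Primrec.snd))
  · have h : PrimrecRel fun (r : Word) (y : ℕ × Tab) => ∀ i < y.1, actW y.2 r i = i :=
      f1.comp (Primrec.fst.comp Primrec.snd)
        (Primrec.fst.pair (Primrec.snd.comp Primrec.snd))
    exact (PrimrecRel.forall_mem_list h).comp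
      (Primrec.list_append.comp (Primrec.snd.comp Primrec.fst)
        (primrec_pairs.comp (Primrec.fst.comp Primrec.fst))) (Primrec.snd.comp Primrec.snd)
  · exact f2.comp (Primrec.fst.comp (Primrec.snd.comp Primrec.snd))
      ((Primrec.fst.comp Primrec.snd).pair (Primrec.snd.comp (Primrec.snd.comp Primrec.snd)))

lemma check2_sound {n : ℕ} {P : List Word} (hP : ∀ r ∈ P, ∀ p ∈ r, p.1 < n) {w : Word} {k : ℕ}
    {T : Tab} (h : Check2 (n, P) (w, k, T)) :
    ∃ x : ℕ → Equiv.Perm ℕ, (∀ r ∈ P, ev x r = 1) ∧ ev x w ≠ 1 := by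
  obtain ⟨h1, h2, h3, i, hi, h4⟩ := h
  simp only at h1 h2 h3 hi h4
  have big : ∀ p a, k ≤ a → act T p a = a := by
    intro p a ha
    have : ((cond p.2 T.1 T.2).getD p.1 []).length ≤ k := by
      rw [List.getD_eq_getElem?_getD]
      cases e : (cond p.2 T.1 T.2)[p.1]? with
      | none => simp
      | some l =>
        apply h2
        have := List.mem_of_getElem? e
        rcases p with ⟨j, _ | _⟩
        · exact List.mem_append_right _ this
        · exact List.mem_append_left _ this
    rw [act, List.getD_eq_getElem?_getD, List.getElem?_eq_none (this.trans ha)]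
    rfl
  have bigW : ∀ (r : Word) a, k ≤ a → actW T r a = a := by
    intro r a ha
    induction r with
    | nil => rfl
    | cons p r ih => change act T p (actW T r a) = a; rw [ih, big p a ha]
  have all : ∀ r ∈ P ++ pairs n, ∀ a, actW T r a = a := fun r hr a =>
    (lt_or_ge a k).elim (h3 r hr a) (bigW r a)
  have hp : ∀ j < n, ∀ a, act T (j, true) (act T (j, false) a) = a ∧
      act T (j, false) (act T (j, true) a) = a := by
    intro j hj a
    constructor
    · exact all [(j, true), (j, false)] (List.mem_append_right _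
        (List.mem_flatMap.mpr ⟨j, List.mem_range.mpr hj, by simp⟩)) a
    · exact all [(j, false), (j, true)] (List.mem_append_right _
        (List.mem_flatMap.mpr ⟨j, List.mem_range.mpr hj, by simp⟩)) a
  let x : ℕ → Equiv.Perm ℕ := fun j => if hj : j < n then
    ⟨act T (j, true), act T (j, false), fun a => (hp j hj a).2, fun a => (hp j hj a).1⟩ else 1
  have hx : ∀ r : Word, (∀ p ∈ r, p.1 < n) → ∀ a, ev x r a = actW T r a := by
    intro r hr a
    induction r with
    | nil => rfl
    | cons p r ih =>
      have hp' := hr p List.mem_cons_self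
      have ih' := ih fun q hq => hr q (List.mem_cons_of_mem _ hq)
      change _ = act T p (actW T r a)
      rw [← ih']
      rcases p with ⟨j, _ | _⟩
      · rw [ev_cons_false, Equiv.Perm.mul_apply]
        simp only [x, dif_pos hp']
        rfl
      · rw [ev_cons_true, Equiv.Perm.mul_apply]
        simp only [x, dif_pos hp']
        rfl
  refine ⟨x, fun r hr => Equiv.ext fun a => ?_, fun e => h4 ?_⟩
  · rw [hx r (hP r hr), all r (List.mem_append_left _ hr)]; rfl
  · rw [← hx w h1, e]; rfl

lemma check2_complete {n k : ℕ} {P : List Word} (hP : ∀ r ∈ P, ∀ p ∈ r, p.1 < n)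
    (x : ℕ → Equiv.Perm (Fin k)) (hx : ∀ r ∈ P, ev x r = 1) {j : ℕ} (hj : j < n) (h : x j ≠ 1) :
    ∃ T : Tab, Check2 (n, P) ([(j, true)], k, T) := by
  let T : Tab := ((List.range n).map fun j => List.ofFn fun a => (x j a).val,
    (List.range n).map fun j => List.ofFn fun a => ((x j)⁻¹ a).val)
  have h1 : ∀ p : ℕ × Bool, p.1 < n → ∀ a : Fin k,
      act T p a = (cond p.2 (x p.1) (x p.1)⁻¹ a).val := by
    rintro ⟨i, _ | _⟩ hi a <;>
      simp [act, T, List.getD_eq_getElem?_getD, show i < n from hi]
  have h2 : ∀ r : Word, (∀ p ∈ r, p.1 < n) → ∀ a : Fin k, actW T r a = (ev x r a).val := by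
    intro r hr a
    induction r with
    | nil => rfl
    | cons p r ih =>
      change act T p (actW T r a) = _
      rw [ih fun q hq => hr q (List.mem_cons_of_mem _ hq), h1 p (hr p List.mem_cons_self), ev_cons,
        Equiv.Perm.mul_apply]
  refine ⟨T, by simpa using hj, ?_, ?_, ?_⟩
  · intro l hl
    simp only [T, List.mem_append, List.mem_map] at hl
    rcases hl with ⟨i, -, rfl⟩ | ⟨i, -, rfl⟩ <;> simp
  · intro r hr i hi
    rcases List.mem_append.mp hr with hr | hr
    · have := h2 r (hP r hr) ⟨i, hi⟩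
      rw [hx r hr] at this
      exact this
    · simp only [pairs, List.mem_flatMap, List.mem_range, List.mem_cons, List.not_mem_nil,
        or_false] at hr
      obtain ⟨l, hl, rfl | rfl⟩ := hr
      · simpa using h2 [(l, true), (l, false)] (by simpa using hl) ⟨i, hi⟩
      · simpa using h2 [(l, false), (l, true)] (by simpa using hl) ⟨i, hi⟩
  · by_contra hc
    push Not at hc
    apply h
    ext a
    have := h2 [(j, true)] (by simpa using hj) a
    rw [hc a a.2] at this
    simpa using this.symm

end Pool.Agent.Lib.MP_edf429_lc
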