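import Mathlib
import Pool.Agent.Shared.GroupTree

/-!
Betweenness in simplicial trees and counting quasimorphisms of groups acting on trees.
-/

set_option autoImplicit false

namespace Pool.Agent.Lib.MP_edf429_lc.TreeQM

open SimpleGraph Pool.Agent.Shared.GroupTree

section Tree

variable {V : Type*} {T : SimpleGraph V}

/-- `m` lies on the geodesic from `x` to `y`. -/
def Btw (T : SimpleGraph V) (x m y : V) : Prop := T.dist x m + T.dist m y = T.dist x y

lemma dc (x y : V) : T.dist x y = T.dist y x := dist_comm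

lemma Btw.symm {x m y : V} (h : Btw T x m y) : Btw T y m x := by
  unfold Btw at *
  rw [dc y m, dc m x, dc y x]
  omega

lemma btw_unique_aux (hT : T.IsTree) {y a b : V} : ∀ (n : ℕ) (x : V), T.dist x a = n →
    T.dist x b = n → Btw T x a y → Btw T x b y → a = b := by
  intro n
  induction n with
  | zero =>
    intro x ha hb _ _
    rw [← (dist_zero_iff hT).1 ha, ← (dist_zero_iff hT).1 hb]
  | succ n ih =>
    intro x ha hb h1 h2
    have hxa : x ≠ a := fun e => by rw [e, dist_self] at ha; omega
    have hxb : x ≠ b := fun e => by rw [e, dist_self] at hb; omega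
    obtain ⟨w, hw⟩ := exists_toward hT hxa
    obtain ⟨w', hw'⟩ := exists_toward hT hxb
    have t1 : Toward T x w y := toward_of_between hT hw (Eq.symm h1)
    have t2 : Toward T x w' y := toward_of_between hT hw' (Eq.symm h2)
    have e : w = w' := toward_unique hT t1 t2
    subst e
    have a1 := hw.2
    have a2 := hw'.2
    have a3 := t1.2
    unfold Btw at *
    exact ih w (by omega) (by omega) (by omega) (by omega)

lemma btw_unique (hT : T.IsTree) {x y a b : V} (h1 : Btw T x a y) (h2 : Btw T x b y)
    (h : T.dist x a = T.dist x b) : a = b :=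
  btw_unique_aux hT _ x rfl h.symm h1 h2

lemma exists_btw (hT : T.IsTree) (x y : V) {i : ℕ} (hi : i ≤ T.dist x y) :
    ∃ m, Btw T x m y ∧ T.dist x m = i := by
  obtain ⟨c, -, -, -, h1, h2⟩ := exists_geodesic hT y _ x rfl
  refine ⟨c i, ?_, h2 i hi⟩
  have := h1 i hi
  have := h2 i hi
  unfold Btw
  omega

lemma btw_cmp (hT : T.IsTree) {x y u m : V} (h1 : Btw T x u y) (h2 : Btw T x m y)
    (h : T.dist x u ≤ T.dist x m) : Btw T x u m := by
  obtain ⟨u', h3, h4⟩ := exists_btw hT x m h
  have h5 : Btw T x u' y := by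
    have := dist_tri hT u' m y
    have := dist_tri hT x u' y
    unfold Btw at *
    omega
  rw [btw_unique hT h1 h5 h4.symm]
  exact h3

lemma median_aux (hT : T.IsTree) (y z : V) : ∀ (n : ℕ) (x : V), T.dist x y = n →
    ∃ m, Btw T x m y ∧ Btw T y m z ∧ Btw T x m z := by
  intro n
  induction n with
  | zero =>
    intro x h
    rw [(dist_zero_iff hT).1 h]
    exact ⟨y, by simp [Btw], by simp [Btw], by simp [Btw]⟩
  | succ n ih =>
    intro x h
    have hxy : x ≠ y := fun e => by rw [e, dist_self] at h; omega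
    obtain ⟨w, hw⟩ := exists_toward hT hxy
    by_cases hz : Toward T x w z
    · have a1 := hw.2
      have a2 := hz.2
      obtain ⟨m, h1, h2, h3⟩ := ih w (by omega)
      have a3 := dist_tri hT x w m
      have a4 := dist_adj hw.1
      have a5 := dist_tri hT x m y
      have a6 := dist_tri hT x m z
      refine ⟨m, ?_, h2, ?_⟩ <;> unfold Btw at * <;> omega
    · have := dist_add hT hw hz
      refine ⟨x, by simp [Btw], ?_, by simp [Btw]⟩
      unfold Btw
      rw [dc y x]
      omega

lemma median (hT : T.IsTree) (x y z : V) : ∃ m, Btw T x m y ∧ Btw T y m z ∧ Btw T x m z :=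
  median_aux hT y z _ x rfl

lemma btw_glue (hT : T.IsTree) {a b c d : V} (h1 : Btw T a b c) (h2 : Btw T b c d) (h : b ≠ c) :
    Btw T a b d := by
  obtain ⟨w, hw⟩ := exists_toward hT h
  have t1 : Toward T b w d := toward_of_between hT hw (Eq.symm h2)
  have t2 : ¬ Toward T b w a := by
    intro t
    have a1 := t.2
    have a2 := hw.2
    have a3 := dist_tri hT a w c
    rw [dc a w] at a3
    rw [dc b a] at a1
    unfold Btw at h1
    omega
  have := dist_add hT t1 t2
  unfold Btw
  rw [dc d a, dc b a] at this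
  omega

lemma dist_parity (hT : T.IsTree) (x y z : V) :
    (T.dist x y + T.dist y z + T.dist x z) % 2 = 0 := by
  obtain ⟨m, h1, h2, h3⟩ := median hT x y z
  unfold Btw at *
  rw [dc y m] at h2
  omega

lemma line_dist {L : ℤ → V} (hL : IsLine T L) (s : ℤ) (i : ℕ) : T.dist (L s) (L (s + i)) = i := by
  have := hL s (s + i)
  rw [sub_add_cancel_left, abs_neg, Nat.abs_cast] at this
  exact_mod_cast this

lemma line_btw {L : ℤ → V} (hL : IsLine T L) {r s t : ℤ} (h1 : r ≤ s) (h2 : s ≤ t) :
    Btw T (L r) (L s) (L t) := by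
  have a1 := hL r s
  have a2 := hL s t
  have a3 := hL r t
  rw [abs_of_nonpos (by omega)] at a1 a2 a3
  unfold Btw
  omega

lemma on_line (hT : T.IsTree) {L : ℤ → V} (hL : IsLine T L) {s t : ℤ} {y : V} (hst : s ≤ t)
    (h : Btw T (L s) y (L t)) : y = L (s + T.dist (L s) y) := by
  have a1 := hL s t
  rw [abs_of_nonpos (by omega)] at a1
  refine btw_unique hT h (line_btw hL (by omega) ?_) (line_dist hL s _).symm
  unfold Btw at h
  omega

lemma IsLine.neg {L : ℤ → V} (hL : IsLine T L) {ε : ℤ} (hε : ε = 1 ∨ ε = -1) (c : ℤ) :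
    IsLine T fun u => L (ε * u + c) := by
  intro s t
  rw [hL]
  rcases hε with rfl | rfl
  · congr 1; ring
  · rw [← abs_neg]; congr 1; ring

end Tree

section Count

variable {G V : Type*} [Group G] [MulAction G V] {T : SimpleGraph V}

/-- At least `k` disjoint translates of the oriented segment from `a` to `b` lie on the oriented
geodesic from `x` to `y`. -/
inductive Occ (G : Type*) {V : Type*} [Group G] [MulAction G V] (T : SimpleGraph V) (a b : V) :
    ℕ → V → V → Prop
  | zero (x y : V) : Occ G T a b 0 x y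
  | succ (k : ℕ) (x y : V) (g : G) :
      T.dist x (g • a) + T.dist (g • a) (g • b) + T.dist (g • b) y = T.dist x y →
      Occ G T a b k (g • b) y → Occ G T a b (k + 1) x y

variable {a b : V}

lemma Occ.le (h : GTree G T) (hab : a ≠ b) {k : ℕ} {x y : V} (H : Occ G T a b k x y) :
    k ≤ T.dist x y := by
  induction H with
  | zero x y => omega
  | succ k x y g h1 _ ih =>
    have h2 : T.dist (g • a) (g • b) ≠ 0 := by
      rw [h.dist_smul]
      exact fun e => hab ((dist_zero_iff h.tree).1 e)
    omega

lemma Occ.mono_left (h : GTree G T) {k : ℕ} {x m y : V} (hb : Btw T x m y)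
    (H : Occ G T a b k m y) : Occ G T a b k x y := by
  cases H with
  | zero => exact Occ.zero x y
  | succ k _ _ g h1 h2 =>
    refine Occ.succ k x y g ?_ h2
    have a1 := dist_tri h.tree x m (g • a)
    have a2 := dist_tri h.tree x (g • a) y
    have a3 := dist_tri h.tree (g • a) (g • b) y
    unfold Btw at hb
    omega

lemma Occ.append (h : GTree G T) {k l : ℕ} {x m y : V} (H : Occ G T a b k x m)
    (H' : Occ G T a b l m y) (hb : Btw T x m y) : Occ G T a b (k + l) x y := by
  induction H with
  | zero x m => rw [zero_add]; exact H'.mono_left h hb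
  | succ k x m g h1 _ ih =>
    have a1 := dist_tri h.tree (g • b) m y
    have a2 := dist_tri h.tree x (g • a) y
    have a3 := dist_tri h.tree (g • a) (g • b) y
    rw [show k + 1 + l = k + l + 1 by ring]
    unfold Btw at hb
    exact Occ.succ _ x y g (by omega) (ih H' (by unfold Btw; omega))

lemma Occ.split (h : GTree G T) {k : ℕ} {x y : V} (H : Occ G T a b k x y) :
    ∀ m, Btw T x m y → ∃ i j, Occ G T a b i x m ∧ Occ G T a b j m y ∧ k ≤ i + j + 1 := by
  induction H with
  | zero x y => exact fun m _ => ⟨0, 0, Occ.zero _ _, Occ.zero _ _, by omega⟩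
  | succ k x y g h1 h2 ih =>
    intro m hm
    have a1 := dist_tri h.tree x (g • a) (g • b)
    have a2 := dist_tri h.tree x (g • b) y
    have hb : Btw T x (g • b) y := by unfold Btw; omega
    rcases le_total (T.dist x (g • b)) (T.dist x m) with hle | hle
    · have h3 := btw_cmp h.tree hb hm hle
      have h4 : Btw T (g • b) m y := by unfold Btw at *; omega
      obtain ⟨i, j, b1, b2, b3⟩ := ih m h4
      exact ⟨i + 1, j, Occ.succ i x m g (by unfold Btw at *; omega) b1, b2, by omega⟩
    · have h3 := btw_cmp h.tree hm hb hle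
      have h4 : Btw T m (g • b) y := by unfold Btw at *; omega
      exact ⟨0, k, Occ.zero _ _, h2.mono_left h h4, by omega⟩

lemma Occ.rev (h : GTree G T) {k : ℕ} {x y : V} (H : Occ G T a b k x y) : Occ G T b a k y x := by
  induction H with
  | zero x y => exact Occ.zero _ _
  | succ k x y g h1 _ ih =>
    have a1 := dist_tri h.tree x (g • a) (g • b)
    have a2 := dist_tri h.tree x (g • b) y
    have hb : Btw T x (g • b) y := by unfold Btw; omega
    have h3 : Occ G T b a (0 + 1) (g • b) x := by
      refine Occ.succ 0 _ _ g ?_ (Occ.zero _ _)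
      rw [dist_self, dc (g • b) (g • a), dc (g • a) x, dc (g • b) x]
      unfold Btw at hb
      omega
    exact ih.append h h3 hb.symm

lemma Occ.smul (h : GTree G T) (f : G) {k : ℕ} {x y : V} (H : Occ G T a b k x y) :
    Occ G T a b k (f • x) (f • y) := by
  induction H with
  | zero x y => exact Occ.zero _ _
  | succ k x y g h1 _ ih =>
    refine Occ.succ k _ _ (f * g) ?_ (by rw [mul_smul]; exact ih)
    simp only [mul_smul, h.dist_smul f]
    exact h1

open Classical in
/-- The maximal number of disjoint translates. -/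
noncomputable def cnt (G : Type*) {V : Type*} [Group G] [MulAction G V] (T : SimpleGraph V)
    (a b x y : V) : ℕ :=
  Nat.findGreatest (fun k => Occ G T a b k x y) (T.dist x y)

lemma occ_cnt (x y : V) : Occ G T a b (cnt G T a b x y) x y := by
  classical
  exact Nat.findGreatest_spec (P := fun k => Occ G T a b k x y) (Nat.zero_le _) (Occ.zero x y)

lemma le_cnt (h : GTree G T) (hab : a ≠ b) {k : ℕ} {x y : V} (H : Occ G T a b k x y) :
    k ≤ cnt G T a b x y := by
  classical
  exact Nat.le_findGreatest (P := fun k => Occ G T a b k x y) (H.le h hab) H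

lemma cnt_rev (h : GTree G T) (hab : a ≠ b) (x y : V) : cnt G T a b x y = cnt G T b a y x :=
  le_antisymm (le_cnt h hab.symm ((occ_cnt x y).rev h)) (le_cnt h hab ((occ_cnt y x).rev h))

lemma cnt_smul (h : GTree G T) (hab : a ≠ b) (f : G) (x y : V) :
    cnt G T a b (f • x) (f • y) = cnt G T a b x y := by
  refine le_antisymm (le_cnt h hab ?_) (le_cnt h hab ((occ_cnt x y).smul h f))
  simpa using (occ_cnt (G := G) (T := T) (a := a) (b := b) (f • x) (f • y)).smul h f⁻¹

lemma cnt_btw (h : GTree G T) (hab : a ≠ b) {x m y : V} (hb : Btw T x m y) :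
    cnt G T a b x m + cnt G T a b m y ≤ cnt G T a b x y ∧
      cnt G T a b x y ≤ cnt G T a b x m + cnt G T a b m y + 1 := by
  refine ⟨le_cnt h hab ((occ_cnt x m).append h (occ_cnt m y) hb), ?_⟩
  obtain ⟨i, j, h1, h2, h3⟩ := (occ_cnt (G := G) (T := T) (a := a) (b := b) x y).split h m hb
  have := le_cnt h hab h1
  have := le_cnt h hab h2
  omega

/-- The signed count. -/
noncomputable def sg (G : Type*) {V : Type*} [Group G] [MulAction G V] (T : SimpleGraph V)
    (a b x y : V) : ℤ :=
  (cnt G T a b x y : ℤ) - cnt G T b a x y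

lemma sg_anti (h : GTree G T) (hab : a ≠ b) (x y : V) : sg G T a b y x = -sg G T a b x y := by
  unfold sg
  rw [cnt_rev h hab y x, cnt_rev h hab.symm y x]
  ring

lemma sg_smul (h : GTree G T) (hab : a ≠ b) (f : G) (x y : V) :
    sg G T a b (f • x) (f • y) = sg G T a b x y := by
  unfold sg
  rw [cnt_smul h hab, cnt_smul h hab.symm]

lemma sg_self (h : GTree G T) (hab : a ≠ b) (x : V) : sg G T a b x x = 0 := by
  have := sg_anti h hab x x
  omega

lemma sg_btw (h : GTree G T) (hab : a ≠ b) {x m y : V} (hb : Btw T x m y) :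
    sg G T a b x y ≤ sg G T a b x m + sg G T a b m y + 1 ∧
      sg G T a b x m + sg G T a b m y ≤ sg G T a b x y + 1 := by
  have h1 := cnt_btw h hab hb
  have h2 := cnt_btw h hab.symm hb
  unfold sg
  omega

lemma sg_tri (h : GTree G T) (hab : a ≠ b) (x y z : V) :
    sg G T a b x z ≤ sg G T a b x y + sg G T a b y z + 3 ∧
      sg G T a b x y + sg G T a b y z ≤ sg G T a b x z + 3 := by
  obtain ⟨m, h1, h2, h3⟩ := median h.tree x y z
  have a1 := sg_btw h hab h1
  have a2 := sg_btw h hab h2
  have a3 := sg_btw h hab h3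
  have a4 := sg_anti h hab m y
  omega

lemma sg_base (h : GTree G T) (hab : a ≠ b) (g : G) (x y : V) :
    sg G T a b x (g • x) ≤ sg G T a b y (g • y) + 6 := by
  have a1 := sg_tri h hab x y (g • x)
  have a2 := sg_tri h hab y (g • y) (g • x)
  have a3 := sg_smul h hab g y x
  have a4 := sg_anti h hab x y
  omega

lemma sg_mul (h : GTree G T) (hab : a ≠ b) (o : V) (f g : G) :
    sg G T a b o ((f * g) • o) ≤ sg G T a b o (f • o) + sg G T a b o (g • o) + 3 ∧
      sg G T a b o (f • o) + sg G T a b o (g • o) ≤ sg G T a b o ((f * g) • o) + 3 := by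
  have a1 := sg_tri h hab o (f • o) ((f * g) • o)
  rw [mul_smul, sg_smul h hab] at a1
  rw [mul_smul]
  exact a1

lemma sg_inv (h : GTree G T) (hab : a ≠ b) (o : V) (g : G) :
    sg G T a b o (g⁻¹ • o) = -sg G T a b o (g • o) := by
  rw [← sg_smul h hab g, smul_inv_smul, sg_anti h hab]

end Count

end Pool.Agent.Lib.MP_edf429_lc.TreeQM
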