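import Mathlib
import Pool.Agent.Lib.MP_edf429_lc.TreeQM

/-!
Acylindrical actions on trees: overlaps of axes, good elements, minimal displacement.
-/

set_option autoImplicit false

namespace Pool.Agent.Lib.MP_edf429_lc.TreeQM

open SimpleGraph Pool.Agent.Shared.GroupTree

variable {G V : Type*} [Group G] [MulAction G V] {T : SimpleGraph V}

def Acyl (G : Type*) {V : Type*} [Group G] [MulAction G V] (T : SimpleGraph V) (K C : ℕ) : Prop :=
  ∀ x y : V, K ≤ T.dist x y → {g : G | g • x = x ∧ g • y = y}.encard ≤ C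

lemma axis_unique (h : GTree G T) {z : G} {P : ℕ} {L M : ℤ → V} (hL : IsAxis T z P L)
    (hM : IsAxis T z P M) : ∃ c, ∀ u, L u = M (u + c) := by
  obtain ⟨c, hc⟩ := hM.mem_of_dist h (hL.dist_on 0)
  exact ⟨c, fun u => hL.eq_of_zero h (hM.translate c) (by simpa using hc) u⟩

lemma axis_pow {p : G} {l : ℕ} {L : ℤ → V} (hL : IsAxis T p l L) {ε : ℤ} (hε : ε = 1 ∨ ε = -1)
    {m : ℕ} (hm : 0 < m) : IsAxis T (p ^ (ε * m)) (m * l) fun u => L (ε * u + 0) := by
  refine ⟨Nat.mul_pos hm hL.pos, IsLine.neg hL.line hε 0, fun s => ?_⟩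
  rw [← hL.shift_zpow]
  congr 1
  push_cast
  ring

lemma overlap (h : GTree G T) {K C : ℕ} (hA : Acyl G T K C) {p : G} {l : ℕ} {L : ℤ → V}
    (hL : IsAxis T p l L) {g : G} {r s ε : ℤ} (hε : ε = 1 ∨ ε = -1)
    (hg : ∀ i : ℤ, 0 ≤ i → i ≤ (K + C) * l → g • L (r + i) = L (ε * i + s)) :
    ∃ c, ∀ u, g • L u = L (ε * u + c) := by
  have hl : (1 : ℤ) ≤ l := by exact_mod_cast hL.pos
  let w : Fin (C + 1) → G := fun j => p ^ (-(ε * j)) * (g * p ^ ((j : ℕ) : ℤ) * g⁻¹)
  have hw : ∀ (j : Fin (C + 1)) (i : ℤ), 0 ≤ i → i ≤ K → w j • L (ε * i + s) = L (ε * i + s) := by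
    intro j i h0 h1
    have hj : ((j : ℕ) : ℤ) ≤ C := by have := j.2; omega
    have hj0 : (0 : ℤ) ≤ (j : ℕ) := by omega
    have e1 : g⁻¹ • L (ε * i + s) = L (r + i) := by
      rw [inv_smul_eq_iff, hg i h0 (by nlinarith)]
    simp only [w, mul_smul]
    rw [e1, ← hL.shift_zpow, add_assoc, hg _ (by nlinarith) (by nlinarith), ← hL.shift_zpow]
    congr 1
    ring
  have hd : K ≤ T.dist (L (ε * 0 + s)) (L (ε * K + s)) := by
    have := line_dist (IsLine.neg hL.line hε s) 0 K
    simp only [zero_add] at this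
    exact this.ge
  have hni : ¬ Function.Injective w := by
    intro hi
    have h1 := Set.encard_le_encard_of_injOn (s := Set.univ)
      (t := {g : G | g • L (ε * 0 + s) = L (ε * 0 + s) ∧ g • L (ε * K + s) = L (ε * K + s)})
      (fun j _ => ⟨hw j 0 le_rfl (by omega), hw j K (by omega) le_rfl⟩) hi.injOn
    have h2 := h1.trans (hA _ _ hd)
    rw [Set.encard_univ, ENat.card_eq_coe_fintype_card, Fintype.card_fin] at h2
    have : C + 1 ≤ C := by exact_mod_cast h2
    omega
  have key : ∀ i j : Fin (C + 1), i < j → w i = w j → ∃ c, ∀ u, g • L u = L (ε * u + c) := by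
    intro i j hij e
    obtain ⟨m, hm⟩ := Nat.exists_eq_add_of_lt (show (i : ℕ) < j from hij)
    have e1 : g * p ^ ((1 : ℤ) * (m + 1 : ℕ)) * g⁻¹ = p ^ (ε * (m + 1 : ℕ)) := by
      have e2 : ∀ k : Fin (C + 1), g * p ^ ((k : ℕ) : ℤ) * g⁻¹ = p ^ (ε * k) * w k := by
        intro k
        simp only [w]
        rw [← mul_assoc, ← zpow_add, add_neg_cancel, zpow_zero, one_mul]
      have e3 : g * p ^ ((1 : ℤ) * (m + 1 : ℕ)) * g⁻¹ =
          (g * p ^ ((j : ℕ) : ℤ) * g⁻¹) * (g * p ^ ((i : ℕ) : ℤ) * g⁻¹)⁻¹ := by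
        rw [hm]
        push_cast
        group
      rw [e3, e2, e2, e, hm]
      push_cast
      group
    have a1 := (axis_pow hL (Or.inl rfl) (Nat.succ_pos m)).conj h g
    rw [e1] at a1
    obtain ⟨c, hc⟩ := axis_unique h a1 (axis_pow hL hε (Nat.succ_pos m))
    refine ⟨ε * c, fun u => ?_⟩
    have := hc u
    simp only [one_mul, add_zero] at this
    rw [this]
    congr 1
    ring
  simp only [Function.Injective, not_forall] at hni
  obtain ⟨i, j, e, hne⟩ := hni
  rcases lt_or_gt_of_ne hne with hlt | hlt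
  · exact key i j hlt e
  · exact key j i hlt e.symm

/-- `g` preserves the line `L`. -/
def St (L : ℤ → V) (g : G) : Prop :=
  ∃ ε c : ℤ, (ε = 1 ∨ ε = -1) ∧ ∀ u, g • L u = L (ε * u + c)

lemma St.mul {L : ℤ → V} {f g : G} (hf : St L f) (hg : St L g) : St L (f * g) := by
  obtain ⟨ε, c, h1, h2⟩ := hf
  obtain ⟨ε', c', h3, h4⟩ := hg
  refine ⟨ε * ε', ε * c' + c, by rcases h1 with rfl | rfl <;> rcases h3 with rfl | rfl <;> simp,
    fun u => ?_⟩
  rw [mul_smul, h4, h2]
  congr 1
  ring

lemma St.inv {L : ℤ → V} {g : G} (hg : St L g) : St L g⁻¹ := by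
  obtain ⟨ε, c, h1, h2⟩ := hg
  refine ⟨ε, -(ε * c), h1, fun u => ?_⟩
  rw [inv_smul_eq_iff, h2]
  congr 1
  rcases h1 with rfl | rfl <;> ring

lemma st_zpow {p : G} {l : ℕ} {L : ℤ → V} (hL : IsAxis T p l L) (n : ℤ) : St L (p ^ n) :=
  ⟨1, n * l, Or.inl rfl, fun u => by rw [← hL.shift_zpow, one_mul]⟩

lemma st_of_two (h : GTree G T) {K C : ℕ} (hA : Acyl G T K C) {p : G} {l : ℕ} {L : ℤ → V}
    (hL : IsAxis T p l L) {g : G} {r r' s s' : ℤ} (h1 : g • L r = L s) (h2 : g • L r' = L s')
    (hr : (K + C) * l ≤ |r - r'|) : St L g := by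
  wlog hle : r ≤ r' generalizing r r' s s'
  · exact this h2 h1 (by rwa [abs_sub_comm]) (by omega)
  have a1 := hL.line s s'
  rw [← h1, ← h2, h.dist_smul, hL.line, abs_of_nonpos (by omega)] at a1
  rw [abs_of_nonpos (by omega)] at hr
  obtain ⟨ε, hε, e⟩ : ∃ ε : ℤ, (ε = 1 ∨ ε = -1) ∧ s' = ε * (r' - r) + s := by
    rcases le_total s s' with hs | hs
    · rw [abs_of_nonpos (by omega)] at a1
      exact ⟨1, Or.inl rfl, by omega⟩
    · rw [abs_of_nonneg (by omega)] at a1
      exact ⟨-1, Or.inr rfl, by omega⟩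
  have l1 : IsLine T fun u => g • L (r + u) := by
    intro a b
    rw [h.dist_smul, hL.line]
    congr 1
    ring
  obtain ⟨c, hc⟩ := overlap h hA hL (g := g) (r := r) (s := s) hε fun i h3 h4 =>
    IsLine.eq_of_ends h.tree l1 (IsLine.neg hL.line hε s) (s := 0) (t := r' - r)
      (by simpa using h1) (by rw [← e, ← h2]; simp) i h3 (by omega)
  exact ⟨ε, c, hε, hc⟩

/-- Hyperbolic elements whose axis is not reversed by any element. -/
def Good (T : SimpleGraph V) (z : G) : Prop :=
  ∃ (P : ℕ) (M : ℤ → V), IsAxis T z P M ∧ ¬ ∃ (g : G) (c : ℤ), ∀ u, g • M u = M (c - u)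

lemma bad_bound (h : GTree G T) {z : G} (hz : ¬ Good T z) {a b : V} (hab : a ≠ b) (o : V)
    (n : ℕ) : -9 ≤ sg G T a b o (z ^ n • o) := by
  rcases h.fix_or_axis z with ⟨v, hv⟩ | ⟨P, M, hM⟩
  · have e : z ^ n • v = v := by
      induction n with
      | zero => simp
      | succ n ih => rw [pow_succ, mul_smul, hv, ih]
    have a1 := sg_base h hab (z ^ n) v o
    rw [e, sg_self h hab] at a1
    omega
  · obtain ⟨g, c, hg⟩ : ∃ (g : G) (c : ℤ), ∀ u, g • M u = M (c - u) := by
      by_contra hc
      exact hz ⟨P, M, hM, hc⟩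
    have e : ∀ u, z ^ n • M u = M (u + n * P) := fun u => by rw [hM.shift_zpow, zpow_natCast]
    have a1 := sg_base h hab (z ^ n) (M 0) o
    have a2 := sg_base h hab (z ^ n) (M (c - n * P)) (M 0)
    have a3 := sg_smul h hab g (M 0) (M (n * P))
    have a4 := sg_anti h hab (M c) (M (c - n * P))
    rw [hg, hg, sub_zero] at a3
    rw [e, e, sub_add_cancel, zero_add] at a2
    rw [e, zero_add] at a1
    omega

lemma good_big (h : GTree G T) {K C : ℕ} (hA : Acyl G T K C) {z : G} (hz : Good T z) :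
    ∃ a b : V, a ≠ b ∧ ∀ (o : V) (m : ℕ), (m : ℤ) - 6 ≤ sg G T a b o (z ^ ((K + C + 1) * m) • o) := by
  obtain ⟨P, M, hM, hg⟩ := hz
  have hP : (1 : ℤ) ≤ P := by exact_mod_cast hM.pos
  set R : ℤ := (K + C + 1) * P with hR
  have hR0 : 0 < R := by positivity
  have hab : M 0 ≠ M R := fun e => by have := hM.line.injective e; omega
  refine ⟨M 0, M R, hab, fun o m => ?_⟩
  have e : ∀ (j : ℕ) (u : ℤ), z ^ ((K + C + 1) * j) • M u = M (u + j * R) := by
    intro j u
    rw [← zpow_natCast, ← hM.shift_zpow, hR]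
    congr 1
    push_cast
    ring
  have h1 : ∀ (m j : ℕ), Occ G T (M 0) (M R) m (M (j * R)) (M ((j + m : ℕ) * R)) := by
    intro m
    induction m with
    | zero => exact fun j => Occ.zero _ _
    | succ m ih =>
      intro j
      have e1 : R + j * R = (j + 1 : ℕ) * R := by push_cast; ring
      refine Occ.succ m _ _ (z ^ ((K + C + 1) * j)) ?_ ?_
      · rw [e, e, zero_add, dist_self, zero_add]
        refine line_btw hM.line (by omega) ?_
        push_cast
        nlinarith
      · rw [e, e1, show j + (m + 1) = j + 1 + m by ring]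
        exact ih (j + 1)
  have h2 : cnt G T (M R) (M 0) (M 0) (M (m * R)) = 0 := by
    have H := occ_cnt (G := G) (T := T) (a := M R) (b := M 0) (M 0) (M (m * R))
    generalize cnt G T (M R) (M 0) (M 0) (M (m * R)) = k at H
    cases H with
    | zero => rfl
    | succ k _ _ g h3 _ =>
      exfalso
      have a1 := dist_tri h.tree (M 0) (g • M R) (g • M 0)
      have a2 := dist_tri h.tree (g • M R) (g • M 0) (M (m * R))
      have a3 := dist_tri h.tree (M 0) (g • M R) (M (m * R))
      have a4 := dist_tri h.tree (M 0) (g • M 0) (M (m * R))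
      have b1 := on_line h.tree hM.line (s := 0) (t := m * R) (y := g • M R) (by positivity)
        (by unfold Btw; omega)
      have b2 := on_line h.tree hM.line (s := 0) (t := m * R) (y := g • M 0) (by positivity)
        (by unfold Btw; omega)
      obtain ⟨ε, c, hε, hc⟩ := st_of_two h hA hM b1 b2 (by
        rw [sub_zero, abs_of_pos hR0]; nlinarith)
      rcases hε with rfl | rfl
      · have c1 := hM.line.injective ((hc R).symm.trans b1)
        have c2 := hM.line.injective ((hc 0).symm.trans b2)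
        omega
      · exact hg ⟨g, c, fun u => by rw [hc]; congr 1; ring⟩
  have h3 := le_cnt h hab (h1 m 0)
  have h4 := sg_base h hab (z ^ ((K + C + 1) * m)) (M 0) o
  rw [e, zero_add] at h4
  simp only [Nat.cast_zero, zero_mul, zero_add] at h3
  unfold sg at h4 ⊢
  omega

lemma exists_scale (h : GTree G T) {n : ℕ} (s : Fin n → G) (hfix : ∀ v : V, ∃ i, s i • v ≠ v) :
    ∃ (i j : Fin n) (l : ℕ) (L : ℤ → V), IsAxis T (s i * s j) l L ∧
      ∀ k, T.dist (L 0) (s k • L 0) ≤ l := by
  have hT := h.tree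
  have : Nonempty V := hT.connected.nonempty
  let lam : V → ℕ := fun x => Finset.univ.sup fun k => T.dist x (s k • x)
  obtain ⟨x, hx⟩ : ∃ x : V, ∀ y, lam x ≤ lam y :=
    ⟨Function.argmin lam, fun t => Function.argmin_le lam t⟩
  have hle : ∀ k, T.dist x (s k • x) ≤ lam x := fun k =>
    Finset.le_sup (f := fun k => T.dist x (s k • x)) (Finset.mem_univ k)
  obtain ⟨k1, hk1⟩ := hfix x
  have hpos : 0 < lam x := by
    have := hle k1
    have h0 : T.dist x (s k1 • x) ≠ 0 := fun e => hk1 ((dist_zero_iff hT).1 e).symm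
    omega
  obtain ⟨k0, -, hk0⟩ := Finset.exists_mem_eq_sup Finset.univ ⟨k1, Finset.mem_univ _⟩
    fun k => T.dist x (s k • x)
  replace hk0 : T.dist x (s k0 • x) = lam x := hk0.symm
  have hne : ∀ k, T.dist x (s k • x) = lam x → x ≠ s k • x := by
    intro k hk e
    rw [← e, dist_self] at hk
    omega
  have hinv : ∀ g : G, T.dist x (g⁻¹ • x) = T.dist x (g • x) := fun g => by
    rw [← h.dist_smul g, smul_inv_smul, dc]
  by_cases c1 : ∃ k w, T.dist x (s k • x) = lam x ∧ Toward T x w (s k • x) ∧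
      ¬ Toward T x w ((s k)⁻¹ • x)
  · obtain ⟨k, w, h1, h2, h3⟩ := c1
    obtain ⟨L, hL, h0⟩ := h.exists_axis h2 h3
    have a1 := axis_pow hL (Or.inl rfl) (m := 2) (by norm_num)
    simp only [one_mul, add_zero] at a1
    refine ⟨k, k, 2 * T.dist x (s k • x), L, ?_, fun j => ?_⟩
    · rw [← pow_two, ← zpow_natCast]
      exact a1
    · have := hle j
      rw [h0]
      omega
  have c2 : ∀ k w, T.dist x (s k • x) = lam x → Toward T x w (s k • x) →
      Toward T x w ((s k)⁻¹ • x) := by
    intro k w h1 h2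
    by_contra h3
    exact c1 ⟨k, w, h1, h2, h3⟩
  obtain ⟨w, hw⟩ := exists_toward hT (hne k0 hk0)
  have hw' := c2 k0 w hk0 hw
  by_cases c3 : ∃ k, ¬ Toward T x w (s k • x) ∧ ¬ Toward T x w ((s k)⁻¹ • x) ∧ s k • w ≠ w
  · obtain ⟨k, h1, h2, h3⟩ := c3
    have d1 := dist_add hT hw' h1
    have d2 : T.dist x ((s k0 * s k) • x) = T.dist x (s k0 • x) +
        T.dist (s k0 • x) ((s k0 * s k) • x) := by
      rw [mul_smul, h.dist_smul, ← h.dist_smul (s k0)⁻¹ x, inv_smul_smul, d1, hinv]
    have t1 : Toward T x w ((s k0 * s k) • x) := toward_of_between hT hw d2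
    have t2 : ¬ Toward T x w ((s k0 * s k)⁻¹ • x) := by
      intro t
      have t3 := h.toward_smul (s k) t
      rw [mul_inv_rev, mul_smul, smul_inv_smul] at t3
      by_cases e : s k • x = x
      · rw [e] at t3
        exact h3 (toward_unique hT t3 hw')
      · obtain ⟨u, hu⟩ := exists_toward hT e
        have t4 : Toward T (s k • x) u ((s k0)⁻¹ • x) :=
          toward_of_between hT hu (by rw [dc, d1, dc (s k • x) x]; ring)
        rw [toward_unique hT t4 t3] at hu
        have t5 := h.toward_smul (s k)⁻¹ hu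
        rw [inv_smul_smul, inv_smul_smul] at t5
        exact h2 t5
    obtain ⟨L, hL, h0⟩ := h.exists_axis t1 t2
    refine ⟨k0, k, _, L, hL, fun j => ?_⟩
    have := hle j
    rw [h0]
    omega
  exfalso
  have c4 : ∀ k, T.dist w (s k • w) < lam x := by
    intro k
    have hk := hle k
    have adj1 : T.dist (s k • x) (s k • w) = 1 := dist_adj (h.adj _ _ _ hw.1)
    by_cases e0 : s k • w = w
    · rw [e0, dist_self]; exact hpos
    have c5 : Toward T x w (s k • x) ∨ Toward T x w ((s k)⁻¹ • x) := by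
      by_contra hc
      rw [not_or] at hc
      exact c3 ⟨k, hc.1, hc.2, e0⟩
    rcases lt_or_eq_of_le hk with hlt | heq
    · rcases c5 with t | t
      · have := t.2
        have := dist_tri hT w (s k • x) (s k • w)
        omega
      · have a1 := (h.toward_smul (s k) t).2
        rw [smul_inv_smul] at a1
        have a2 := dist_tri hT w x (s k • w)
        rw [dist_adj hw.1.symm, dc x (s k • w)] at a2
        rw [dc (s k • x) x] at a1
        omega
    · have t1 : Toward T x w (s k • x) := by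
        rcases c5 with t | t
        · exact t
        · obtain ⟨u, hu⟩ := exists_toward hT (hne k heq)
          rw [← toward_unique hT (c2 k u heq hu) t]
          exact hu
      have t2 := h.toward_smul (s k) (c2 k w heq t1)
      rw [smul_inv_smul] at t2
      have a1 := t1.2
      have a2 := t2.2
      by_cases e1 : s k • x = w
      · exfalso
        rw [e1, dist_adj hw.1.symm] at a2
        exact h.noinv (s k) x w hw.1 e1 ((dist_zero_iff hT).1 (by omega))
      · obtain ⟨u, hu⟩ := exists_toward hT e1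
        have t3 : Toward T (s k • x) u x := toward_of_between hT hu (by
          rw [dist_adj hw.1.symm, dc (s k • x) x, dc (s k • x) w]; omega)
        rw [toward_unique hT t3 t2] at hu
        have a3 := hu.2
        rw [dc (s k • w) w, dc (s k • x) w] at a3
        omega
  have := (Finset.sup_lt_iff (s := Finset.univ) (f := fun k => T.dist w (s k • w)) hpos).2
    fun k _ => c4 k
  exact absurd (hx w) (not_le.2 this)

/-- No homomorphism onto the group of order two. -/
def NoTwo (G : Type*) [Group G] : Prop :=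
  ∀ f : G → ℤ, (∀ a b, (f (a * b) - f a - f b) % 2 = 0) → ∀ a, f a % 2 = 0

lemma NoTwo.additive (hG : NoTwo G) : ∀ (n : ℕ) (f : G → ℤ), (∀ a b, f (a * b) = f a + f b) →
    ∀ g, (f g).natAbs ≤ n → f g = 0 := by
  intro n
  induction n with
  | zero => intro f _ g hg; omega
  | succ n ih =>
    intro f hf g hg
    have h1 := hG f fun a b => by rw [hf]; omega
    have h2 := ih (fun a => f a / 2) (fun a b => by
      have := h1 a; have := h1 b; have := hf a b; omega) g (by have := h1 g; omega)
    have := h1 g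
    omega

lemma exists_not_st (hG : NoTwo G) {p : G} {l : ℕ} {L : ℤ → V} (hL : IsAxis T p l L) {n : ℕ}
    (s : Fin n → G) (hs : Subgroup.closure (Set.range s) = ⊤) : ∃ k, ¬ St L (s k) := by
  by_contra hc
  push Not at hc
  have hall : ∀ g : G, St L g := by
    intro g
    have : g ∈ Subgroup.closure (Set.range s) := hs ▸ Subgroup.mem_top g
    induction this using Subgroup.closure_induction with
    | mem x hx => obtain ⟨k, rfl⟩ := hx; exact hc k
    | one => simpa using st_zpow hL 0
    | mul x y _ _ hx hy => exact hx.mul hy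
    | inv x _ hx => exact hx.inv
  choose ε c hε hc using hall
  have hm : ∀ a b u, ε (a * b) * u + c (a * b) = ε a * (ε b * u + c b) + c a := fun a b u =>
    hL.line.injective (by rw [← hc, mul_smul, hc, hc])
  have h1 : ∀ a, ε a = 1 := by
    intro a
    have := hG (fun a => (1 - ε a) / 2) (fun a b => by
      have b0 := hm a b 0
      have b1 := hm a b 1
      rcases hε a with e1 | e1 <;> rcases hε b with e2 | e2 <;> rw [e1, e2] at b0 b1 ⊢ <;> omega) a
    rcases hε a with e | e
    · exact e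
    · simp [e] at this
  have h2 := hG.additive _ c (fun a b => by have := hm a b 0; rw [h1, h1, h1] at this; omega) p
    le_rfl
  have h3 := hL.line.injective ((hL.shift 0).trans (hc p 0))
  have := hL.pos
  omega

lemma gtree_of (hG : NoTwo G) (hT : T.IsTree)
    (hadj : ∀ (g : G) (x y : V), T.Adj x y → T.Adj (g • x) (g • y)) : GTree G T := by
  have hle : ∀ (g : G) (x y : V), T.dist (g • x) (g • y) ≤ T.dist x y := by
    intro g x y
    obtain ⟨p, hp⟩ := hT.connected.exists_walk_length_eq_dist x y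
    let f : T →g T := ⟨fun v => g • v, fun {a b} hab => hadj g a b hab⟩
    have := dist_le (p.map f)
    rw [Walk.length_map, hp] at this
    exact this
  have hd : ∀ (g : G) (x y : V), T.dist (g • x) (g • y) = T.dist x y := fun g x y =>
    le_antisymm (hle g x y) (by simpa using hle g⁻¹ (g • x) (g • y))
  refine ⟨hT, hadj, fun g x y hxy e _ => ?_⟩
  have := hG (fun a => T.dist x (a • x)) (fun a b => by
    have := dist_parity hT x (a • x) ((a * b) • x)
    rw [mul_smul, hd] at this
    simp only [mul_smul]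
    omega) g
  simp only [e, dist_adj hxy] at this
  omega

end Pool.Agent.Lib.MP_edf429_lc.TreeQM
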