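import Mathlib
import Pool.Agent.Lib.MP_edf429_lc.TreeAxis

/-!
A block pattern whose axis cannot be reversed.
-/

set_option autoImplicit false

namespace Pool.Agent.Lib.MP_edf429_lc.TreeQM

open SimpleGraph Pool.Agent.Shared.GroupTree

variable {G V : Type*} [Group G] [MulAction G V] {T : SimpleGraph V}

lemma mem_line (hT : T.IsTree) {L : ℤ → V} (hL : IsLine T L) {r t : ℤ} {y : V}
    (h : Btw T (L r) y (L t)) : ∃ s, y = L s := by
  rcases le_total r t with h1 | h1
  · exact ⟨_, on_line hT hL h1 h⟩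
  · exact ⟨_, on_line hT hL h1 h.symm⟩

lemma Btw.smul (h : GTree G T) (g : G) {x m y : V} (H : Btw T x m y) :
    Btw T (g • x) (g • m) (g • y) := by
  unfold Btw at *
  simpa only [h.dist_smul] using H

lemma junction (h : GTree G T) {K C : ℕ} (hA : Acyl G T K C) {p : G} {l : ℕ} {L : ℤ → V}
    (hL : IsAxis T p l L) {τ : G} (hτ : ¬ St L τ) (hd : T.dist (L 0) (τ • L 0) ≤ l) {ε : ℤ}
    (hε : ε = 1 ∨ ε = -1) {u₁ u : ℤ} (hu₁ : (K + C + 1) * l ≤ u₁) (hu : u₁ ≤ u) (v : ℤ) :
    Btw T (L (ε * u)) (L (ε * u₁)) (τ • L v) := by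
  have hT := h.tree
  have hl : (1 : ℤ) ≤ l := by exact_mod_cast hL.pos
  have hKC : (0 : ℤ) ≤ (K + C) * l := by positivity
  have hL' : IsLine T fun i => L (ε * i) := by simpa using IsLine.neg hL.line hε 0
  obtain ⟨m, m1, m2, m3⟩ := median hT (L 0) (L (ε * u)) (τ • L v)
  have hm : m = L (ε * T.dist (L 0) m) := by
    have := on_line hT hL' (s := 0) (t := u) (y := m) (by nlinarith) (by simpa using m1)
    simpa using this
  by_cases hρ : (T.dist (L 0) m : ℤ) ≤ u₁
  · have b1 := (line_btw hL' hρ hu).symm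
    simp only [← hm] at b1
    have a1 := dist_tri hT (L (ε * u₁)) m (τ • L v)
    have a2 := dist_tri hT (L (ε * u)) (L (ε * u₁)) (τ • L v)
    unfold Btw at *
    omega
  exfalso
  obtain ⟨m', n1, n2, n3⟩ := median hT (L 0) (τ • L 0) (τ • L v)
  have key : ∀ i : ℤ, l ≤ i → i ≤ u₁ → ∃ s, τ⁻¹ • L (ε * i) = L s := by
    intro i h1 h2
    have b1 := line_btw hL' (r := 0) (s := i) (t := T.dist (L 0) m) (by omega) (by omega)
    simp only [← hm, mul_zero] at b1
    have b2 := hL' 0 i
    simp only [mul_zero, zero_sub, abs_neg] at b2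
    rw [abs_of_nonneg (by omega)] at b2
    have b3 : Btw T (L 0) (L (ε * i)) (τ • L v) := by
      have a1 := dist_tri hT (L (ε * i)) m (τ • L v)
      have a2 := dist_tri hT (L 0) (L (ε * i)) (τ • L v)
      unfold Btw at *
      omega
    have b4 := btw_cmp hT n3 b3 (by unfold Btw at n1; omega)
    have b5 : Btw T (τ • L 0) (L (ε * i)) (τ • L v) := by
      have a1 := dist_tri hT (τ • L 0) m' (L (ε * i))
      have a2 := dist_tri hT (τ • L 0) (L (ε * i)) (τ • L v)
      unfold Btw at *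
      omega
    have b6 := b5.smul h τ⁻¹
    rw [inv_smul_smul, inv_smul_smul] at b6
    exact mem_line hT hL.line b6
  obtain ⟨s, hs⟩ := key l le_rfl (by nlinarith)
  obtain ⟨s', hs'⟩ := key u₁ (by nlinarith) le_rfl
  have := (st_of_two h hA hL hs hs' (by
    rcases hε with rfl | rfl
    · rw [abs_of_nonpos (by nlinarith)]; nlinarith
    · rw [abs_of_nonneg (by nlinarith)]; nlinarith)).inv
  rw [inv_inv] at this
  exact hτ this

lemma axis_of_btw (h : GTree G T) {z : G} {x : V} (hb : Btw T (z⁻¹ • x) x (z • x))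
    (hne : x ≠ z • x) : ∃ M : ℤ → V, IsAxis T z (T.dist x (z • x)) M ∧ M 0 = x := by
  obtain ⟨w, hw⟩ := exists_toward h.tree hne
  refine h.exists_axis hw fun t => ?_
  have a1 := t.2
  have a2 := hw.2
  have a3 := dist_tri h.tree (z⁻¹ • x) w (z • x)
  rw [dc (z⁻¹ • x) w] at a3
  rw [dc x (z⁻¹ • x)] at a1
  unfold Btw at hb
  omega

lemma arith (e m : ℕ → ℤ) (y c : ℤ) (hy : 0 < y)
    (hm : ∀ j, (j % 4 = 0 ∧ m j = 700 * y) ∨ (j % 4 = 1 ∧ m j = 100 * y) ∨
      (j % 4 = 2 ∧ m j = 200 * y) ∨ (j % 4 = 3 ∧ m j = 400 * y))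
    (he : ∀ j, e j + m (j + 1) - 4 * y ≤ e (j + 1) ∧ e (j + 1) ≤ e j + m (j + 1) + y)
    (hc : ∀ j, j ≤ 2 → ∃ i, c - 11 * y ≤ e i + e j ∧ e i + e j ≤ c + y) : False := by
  have mono : ∀ i k, e i ≤ e (i + k) := by
    intro i k
    induction k with
    | zero => exact le_rfl
    | succ k ih =>
      have := he (i + k)
      have := hm (i + k + 1)
      rw [← add_assoc]
      omega
  have step : ∀ i i', 50 * y ≤ e i - e i' → e i - e i' ≤ 250 * y → i = i' + 1 := by
    intro i i' h1 h2
    rcases lt_trichotomy i (i' + 1) with h | h | h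
    · have := mono i (i' - i)
      rw [show i + (i' - i) = i' by omega] at this
      omega
    · exact h
    · have := mono (i' + 1 + 1) (i - (i' + 1 + 1))
      rw [show i' + 1 + 1 + (i - (i' + 1 + 1)) = i by omega] at this
      have := he i'
      have := he (i' + 1)
      have := hm (i' + 1)
      have := hm (i' + 1 + 1)
      omega
  obtain ⟨i0, a0⟩ := hc 0 (by omega)
  obtain ⟨i1, a1⟩ := hc 1 (by omega)
  obtain ⟨i2, a2⟩ := hc 2 (by omega)
  have b0 := he 0
  have b1 := he 1
  have c1 := hm 1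
  have c2 := hm 2
  norm_num at b0 b1 c1 c2
  have s0 := step i0 i1 (by omega) (by omega)
  have s1 := step i1 i2 (by omega) (by omega)
  subst s0 s1
  have := he i2
  have := he (i2 + 1)
  have := hm (i2 + 1)
  have := hm (i2 + 1 + 1)
  omega

lemma chain_good (h : GTree G T) {K C : ℕ} (hA : Acyl G T K C) {p : G} {l : ℕ} {L : ℤ → V}
    (hL : IsAxis T p l L) (g τ : ℕ → G) (ε n : ℕ → ℤ) (z : G)
    (hε : ∀ j, ε j = 1 ∨ ε j = -1) (hτ : ∀ j, ¬ St L (τ j))
    (hd : ∀ j, T.dist (L 0) (τ j • L 0) ≤ l)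
    (hg : ∀ j, g (j + 1) = g j * p ^ (ε j * n j) * τ j)
    (hz : ∀ j, g (j + 4) = z * g j) (hε4 : ∀ j, ε (j + 4) = ε j)
    (hn : ∀ j, (j % 4 = 0 ∧ n j = 700 * (K + C + 1)) ∨ (j % 4 = 1 ∧ n j = 100 * (K + C + 1)) ∨
      (j % 4 = 2 ∧ n j = 200 * (K + C + 1)) ∨ (j % 4 = 3 ∧ n j = 400 * (K + C + 1))) :
    Good T z := by
  have hT := h.tree
  have hl : (1 : ℤ) ≤ l := by exact_mod_cast hL.pos
  obtain ⟨y, hy⟩ : ∃ y : ℤ, y = (K + C + 1) * l := ⟨_, rfl⟩
  have hKC : (0 : ℤ) ≤ (K + C) * l := by positivity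
  have hyl : (l : ℤ) ≤ y := by nlinarith
  have hyK : (K + C) * l ≤ y := by nlinarith
  obtain ⟨m, hm0⟩ : ∃ m : ℕ → ℤ, m = fun j => n j * l := ⟨_, rfl⟩
  have hm : ∀ j, (j % 4 = 0 ∧ m j = 700 * y) ∨ (j % 4 = 1 ∧ m j = 100 * y) ∨
      (j % 4 = 2 ∧ m j = 200 * y) ∨ (j % 4 = 3 ∧ m j = 400 * y) := by
    intro j
    simp only [hm0, hy]
    rcases hn j with ⟨a, b⟩ | ⟨a, b⟩ | ⟨a, b⟩ | ⟨a, b⟩ <;> rw [b]
    · exact Or.inl ⟨a, by ring⟩
    · exact Or.inr (Or.inl ⟨a, by ring⟩)
    · exact Or.inr (Or.inr (Or.inl ⟨a, by ring⟩))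
    · exact Or.inr (Or.inr (Or.inr ⟨a, by ring⟩))
  have hmy : ∀ j, 100 * y ≤ m j := fun j => by have := hm j; omega
  obtain ⟨X, hX⟩ : ∃ X : ℕ → ℤ → V, X = fun j u => g j • L (ε j * u) := ⟨_, rfl⟩
  have hXl : ∀ j, IsLine T (X j) := by
    intro j a b
    have := IsLine.neg hL.line (hε j) 0 a b
    simp only [add_zero] at this
    simp only [hX, h.dist_smul, this]
  have hXd : ∀ j a b, a ≤ b → (T.dist (X j a) (X j b) : ℤ) = b - a := by
    intro j a b hab
    rw [hXl j, abs_of_nonpos (by omega)]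
    ring
  have X1 : ∀ j u, X j u = (g j * p ^ (ε j * n j)) • L (-ε j * (m j - u)) := by
    intro j u
    rw [mul_smul, ← hL.shift_zpow]
    simp only [hX, hm0]
    congr 2
    ring
  have X2 : ∀ j v, X (j + 1) v = (g j * p ^ (ε j * n j)) • τ j • L (ε (j + 1) * v) := by
    intro j v
    simp only [hX, hg, mul_smul]
  have J1 : ∀ j u v, u ≤ m j - y → Btw T (X j u) (X j (m j - y)) (X (j + 1) v) := by
    intro j u v hu
    rw [X1 j u, X1 j (m j - y), X2, sub_sub_cancel]
    exact (junction h hA hL (hτ j) (hd j) (ε := -ε j) (by have := hε j; omega) hy.ge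
      (by omega) _).smul h _
  have J2 : ∀ j u v, y ≤ v → Btw T (X j u) (X (j + 1) y) (X (j + 1) v) := by
    intro j u v hv
    rw [X1 j u, X2, X2]
    have := (junction h hA hL (τ := (τ j)⁻¹) (fun H => hτ j (by simpa using H.inv))
      (by rw [← h.dist_smul (τ j), smul_inv_smul, dc]; exact hd j) (hε (j + 1)) hy.ge hv
      (-ε j * (m j - u))).smul h (τ j)
    rw [smul_inv_smul] at this
    exact (this.smul h _).symm
  have gap : ∀ j, (T.dist (X j (m j - y)) (X (j + 1) y) : ℤ) ≤ 3 * y := by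
    intro j
    have a1 := dist_tri hT (X j (m j - y)) (X j (m j)) (X (j + 1) y)
    have a2 := dist_tri hT (X j (m j)) (X (j + 1) 0) (X (j + 1) y)
    have a3 := hXd j (m j - y) (m j) (by omega)
    have a4 := hXd (j + 1) 0 y (by omega)
    have a5 : T.dist (X j (m j)) (X (j + 1) 0) ≤ l := by
      rw [X1, X2, h.dist_smul]
      simpa using hd j
    omega
  obtain ⟨s, hs⟩ : ∃ s : ℕ → ℕ, s = fun j => T.dist (X 0 y) (X j y) := ⟨_, rfl⟩
  have hs' : ∀ j, s j = T.dist (X 0 y) (X j y) := fun j => by rw [hs]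
  have C1 : ∀ j, Btw T (X 0 y) (X j y) (X j (m j - y)) := by
    intro j
    induction j with
    | zero => simp [Btw]
    | succ j ih =>
      have b1 := btw_glue hT ih (J1 j y (m (j + 1) - y) (by have := hmy j; omega))
        fun e => by have := (hXl j).injective e; have := hmy j; omega
      have b2 := J2 j y (m (j + 1) - y) (by have := hmy (j + 1); omega)
      have a1 := dist_tri hT (X 0 y) (X j y) (X (j + 1) y)
      have a2 := dist_tri hT (X 0 y) (X (j + 1) y) (X (j + 1) (m (j + 1) - y))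
      unfold Btw at *
      omega
  have C2 : ∀ j, Btw T (X 0 y) (X j y) (X (j + 1) y) := fun j =>
    btw_glue hT (C1 j) (J1 j y y (by have := hmy j; omega))
      fun e => by have := (hXl j).injective e; have := hmy j; omega
  have C3 : ∀ j, (s (j + 1) : ℤ) =
      s j + (m j - 2 * y) + T.dist (X j (m j - y)) (X (j + 1) y) := by
    intro j
    have a1 := C2 j
    have a2 := J1 j y y (by have := hmy j; omega)
    have a3 := hXd j y (m j - y) (by have := hmy j; omega)
    rw [hs', hs']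
    unfold Btw at *
    omega
  have C4 : ∀ i k, Btw T (X 0 y) (X i y) (X (i + k) y) := by
    intro i k
    induction k with
    | zero => simp [Btw]
    | succ k ih =>
      have a1 := C2 (i + k)
      have a2 := dist_tri hT (X i y) (X (i + k) y) (X (i + k + 1) y)
      have a3 := dist_tri hT (X 0 y) (X i y) (X (i + k + 1) y)
      rw [← add_assoc]
      unfold Btw at *
      omega
  have sge : ∀ j, j ≤ s j := by
    intro j
    induction j with
    | zero => omega
    | succ j ih => have := C3 j; have := hmy j; omega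
  have smono : ∀ i k, s i ≤ s (i + k) := by
    intro i k
    have := C4 i k
    rw [hs', hs']
    unfold Btw at this
    omega
  have Z1 : ∀ j u, X (j + 4) u = z • X j u := fun j u => by simp only [hX, hz, hε4, mul_smul]
  have Z2 : ∀ k, X (4 * k) y = z ^ k • X 0 y := by
    intro k
    induction k with
    | zero => simp
    | succ k ih => rw [mul_add, mul_one, Z1, ih, pow_succ', mul_smul]
  obtain ⟨M, hM, M0⟩ := axis_of_btw h (z := z) (x := X 0 y) (by
      have := (C4 4 4).smul h z⁻¹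
      rw [Z1 4, show (4 : ℕ) = 0 + 4 from rfl, Z1 0, inv_smul_smul, inv_smul_smul] at this
      exact this)
    (by
      intro e
      have := sge 4
      rw [hs', show (4 : ℕ) = 0 + 4 from rfl, Z1 0, ← e, dist_self] at this
      omega)
  generalize T.dist (X 0 y) (z • X 0 y) = P at hM
  have hP : (1 : ℤ) ≤ P := by exact_mod_cast hM.pos
  have M1 : ∀ j, M (s j) = X j y := by
    intro j
    have b1 := C4 j (3 * j)
    rw [show j + 3 * j = 4 * j by ring, Z2, ← zpow_natCast, ← M0, ← hM.shift_zpow] at b1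
    have := on_line hT hM.line (by positivity) b1
    rw [M0, ← hs', zero_add] at this
    exact this.symm
  have M2 : ∀ j, M (s j + (m j - 2 * y)) = X j (m j - y) := by
    intro j
    have b1 := J1 j y y (by have := hmy j; omega)
    rw [← M1 j, ← M1 (j + 1)] at b1
    have := on_line hT hM.line (by have := smono j 1; omega) b1
    rw [M1 j, hXd j y (m j - y) (by have := hmy j; omega)] at this
    rw [this]
    congr 1
    ring
  have M3 : ∀ j (i : ℤ), s j ≤ i → i ≤ s j + (m j - 2 * y) → M i = X j (i - s j + y) := by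
    intro j i h1 h2
    have l1 : IsLine T fun u => X j (u - s j + y) := by
      intro a b
      rw [hXl j]
      congr 1
      ring
    exact IsLine.eq_of_ends hT hM.line l1 (s := s j) (t := s j + (m j - 2 * y))
      (by simp [M1]) (by rw [M2]; congr 1; ring) i h1 h2
  have nonrun : ∀ (j : ℕ) (f : G) (r r' : ℤ), f • M (s j + (m j - 2 * y) - y) = L r →
      f • M (s (j + 1) + y) = L r' → False := by
    intro j f r r' h1 h2
    have hb : ∀ i : ℤ, s j + (m j - 2 * y) - y ≤ i → i ≤ s (j + 1) + y → ∃ t, f • M i = L t := by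
      intro i h3 h4
      have := (line_btw hM.line h3 h4).smul h f
      rw [h1, h2] at this
      exact mem_line hT hL.line this
    have c3 := C3 j
    have y1 := hmy j
    have y2 := hmy (j + 1)
    obtain ⟨t, ht⟩ := hb (s j + (m j - 2 * y)) (by omega) (by omega)
    obtain ⟨t', ht'⟩ := hb (s (j + 1)) (by omega) (by omega)
    rw [M3 j _ (by omega) (by omega)] at h1 ht
    rw [M3 (j + 1) _ (by omega) (by omega)] at h2 ht'
    simp only [hX, ← mul_smul] at h1 h2 ht ht'
    have s1 := st_of_two h hA hL h1 ht (by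
      rcases hε j with e | e <;> rw [e]
      · rw [abs_of_nonpos (by omega)]; omega
      · rw [abs_of_nonneg (by omega)]; omega)
    have s2 := st_of_two h hA hL h2 ht' (by
      rcases hε (j + 1) with e | e <;> rw [e]
      · rw [abs_of_nonneg (by omega)]; omega
      · rw [abs_of_nonpos (by omega)]; omega)
    have s3 := ((st_zpow hL (ε j * n j)).inv.mul s1.inv).mul s2
    rw [hg] at s3
    exact hτ j (by convert s3 using 1; group)
  refine ⟨P, M, hM, ?_⟩
  rintro ⟨ρ, c, hρ⟩
  obtain ⟨k, hk⟩ : ∃ k : ℕ, s 3 + y ≤ c + k * P :=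
    ⟨(s 3 + y - c).toNat, by
      have := Int.self_le_toNat (s 3 + y - c)
      have : (0 : ℤ) ≤ (s 3 + y - c).toNat := by omega
      nlinarith⟩
  have hρ' : ∀ u, (z ^ (k : ℤ) * ρ) • M u = M (c + k * P - u) := by
    intro u
    rw [mul_smul, hρ, ← hM.shift_zpow]
    congr 1
    ring
  generalize z ^ (k : ℤ) * ρ = σ at hρ'
  generalize c + k * P = c' at hρ' hk
  refine arith (fun j => s j + (m j - 2 * y)) m y c' (by omega) hm (fun j => ?_) fun j hj => ?_
  · have := C3 j
    have := gap j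
    omega
  · have c3 := C3 j
    have g3 := gap j
    have s3 := smono (j + 1) (2 - j)
    rw [show j + 1 + (2 - j) = 3 by omega] at s3
    have hex : ∃ i : ℕ, c' - (s (j + 1) + y) < s (i + 1) :=
      ⟨(c' - (s (j + 1) + y)).toNat, by have := sge ((c' - (s (j + 1) + y)).toNat + 1); omega⟩
    classical
    let i := Nat.find hex
    have i1 : c' - (s (j + 1) + y) < s (i + 1) := Nat.find_spec hex
    have i2 : (s i : ℤ) ≤ c' - (s (j + 1) + y) := by
      rcases Nat.eq_zero_or_pos i with e | e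
      · rw [e, hs' 0, SimpleGraph.dist_self]
        omega
      · have := Nat.find_min hex (m := i - 1) (by omega)
        rw [show i - 1 + 1 = i by omega] at this
        omega
    have c4 := C3 i
    have g4 := gap i
    refine ⟨i, by omega, ?_⟩
    by_contra hc
    refine nonrun j ((g i)⁻¹ * σ) (ε i * (c' - (s j + (m j - 2 * y) - y) - s i + y))
      (ε i * (c' - (s (j + 1) + y) - s i + y)) ?_ ?_
    · rw [mul_smul, hρ', M3 i _ (by omega) (by omega), hX, inv_smul_smul]
    · rw [mul_smul, hρ', M3 i _ (by omega) (by omega), hX, inv_smul_smul]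

lemma pattern_good (h : GTree G T) {K C : ℕ} (hA : Acyl G T K C) {p : G} {l : ℕ} {L : ℤ → V}
    (hL : IsAxis T p l L) {t : G} (ht : ¬ St L t) (hd : T.dist (L 0) (t • L 0) ≤ l) :
    Good T ((p⁻¹) ^ (700 * (K + C + 1)) * t * p ^ (100 * (K + C + 1)) * t⁻¹ *
      p ^ (200 * (K + C + 1)) * t * p ^ (400 * (K + C + 1)) * t⁻¹) := by
  let ε : ℕ → ℤ := fun j => if j % 4 = 0 then -1 else 1
  let n : ℕ → ℤ := fun j => (if j % 4 = 0 then 700 else if j % 4 = 1 then 100
    else if j % 4 = 2 then 200 else 400) * (K + C + 1)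
  let τ : ℕ → G := fun j => if j % 4 = 0 ∨ j % 4 = 2 then t else t⁻¹
  let g : ℕ → G := fun j => Nat.rec 1 (fun j a => a * p ^ (ε j * n j) * τ j) j
  have hg : ∀ j, g (j + 1) = g j * p ^ (ε j * n j) * τ j := fun j => rfl
  have e4 : ∀ j, (j + 4) % 4 = j % 4 := fun j => by omega
  have hz : ∀ j, g (j + 4) = g 4 * g j := by
    intro j
    induction j with
    | zero => simp [g]
    | succ j ih =>
      rw [show j + 1 + 4 = j + 4 + 1 by ring, hg (j + 4), ih, hg j]
      simp only [ε, n, τ, e4, mul_assoc]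
  have H := chain_good h hA hL g τ ε n (g 4) (fun j => by simp only [ε]; split_ifs <;> simp)
    (fun j => by
      simp only [τ]
      split_ifs
      · exact ht
      · exact fun H => ht (by simpa using H.inv))
    (fun j => by
      simp only [τ]
      split_ifs
      · exact hd
      · rw [← h.dist_smul t, smul_inv_smul, dc]; exact hd)
    hg hz (fun j => by simp only [ε, e4])
    (fun j => by
      have : j % 4 = 0 ∨ j % 4 = 1 ∨ j % 4 = 2 ∨ j % 4 = 3 := by omega
      rcases this with e | e | e | e <;> simp [n, e])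
  have e : g 4 = 1 * p ^ (ε 0 * n 0) * τ 0 * p ^ (ε 1 * n 1) * τ 1 * p ^ (ε 2 * n 2) * τ 2 *
      p ^ (ε 3 * n 3) * τ 3 := rfl
  convert H using 1
  rw [e]
  simp only [ε, n, τ]
  norm_num
  simp only [← zpow_natCast]
  push_cast
  rfl

end Pool.Agent.Lib.MP_edf429_lc.TreeQM
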