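import Mathlib
import Pool.Agent.Lib.MP_edf429_lc.TreeGood
import Pool.Agent.Lib.MP_edf429_lc.Options

/-!
A universal word that is nontrivial in all acylindrical actions on trees.
-/

set_option autoImplicit false

namespace Pool.Agent.Lib.MP_edf429_lc.TreeQM

open SimpleGraph Pool.Agent.Shared.GroupTree Pool.Agent.Shared.GroupUndec

def rep (n : ℕ) (w : Word) : Word := Nat.rec [] (fun _ a => w ++ a) n

def zw (D i j k : ℕ) : Word :=
  rep (700 * D) [(j, false), (i, false)] ++ ([(k, true)] ++ (rep (100 * D) [(i, true), (j, true)] ++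
    ([(k, false)] ++ (rep (200 * D) [(i, true), (j, true)] ++ ([(k, true)] ++
      (rep (400 * D) [(i, true), (j, true)] ++ [(k, false)]))))))

def zi (D n m : ℕ) : Word := zw D (m % n) (m / n % n) (m / n / n % n)

def univ (D n m : ℕ) : Word :=
  Nat.rec [] (fun m W => W ++ rep (D * (3 * W.length + (12 * (n * n * n) + 10))) (zi D n m)) m

lemma ev_rep {G : Type*} [Group G] (a : ℕ → G) (n : ℕ) (w : Word) :
    ev a (rep n w) = ev a w ^ n := by
  induction n with
  | zero => simp [rep]
  | succ n ih =>
    have : rep (n + 1) w = w ++ rep n w := rfl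
    rw [this, ev_append, ih, pow_succ']

lemma mem_rep {n : ℕ} {w : Word} {p : ℕ × Bool} (h : p ∈ rep n w) : p ∈ w := by
  induction n with
  | zero => simp [rep] at h
  | succ n ih =>
    have : rep (n + 1) w = w ++ rep n w := rfl
    rw [this, List.mem_append] at h
    exact h.elim id ih

lemma univ_succ (D n m : ℕ) : univ D n (m + 1) = univ D n m ++
    rep (D * (3 * (univ D n m).length + (12 * (n * n * n) + 10))) (zi D n m) := rfl

lemma univ_letters (D : ℕ) {n : ℕ} (hn : 0 < n) (m : ℕ) : ∀ p ∈ univ D n m, p.1 < n := by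
  induction m with
  | zero => simp [univ]
  | succ m ih =>
    intro p hp
    rw [univ_succ, List.mem_append] at hp
    rcases hp with hp | hp
    · exact ih p hp
    · have a1 := Nat.mod_lt m hn
      have a2 := Nat.mod_lt (m / n) hn
      have a3 := Nat.mod_lt (m / n / n) hn
      have := mem_rep hp
      simp only [zi, zw, List.mem_append] at this
      rcases this with h | h | h | h | h | h | h | h <;>
        first
        | (have h' := mem_rep h
           simp only [List.mem_cons, List.not_mem_nil, or_false] at h'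
           rcases h' with rfl | rfl <;> assumption)
        | (simp only [List.mem_cons, List.not_mem_nil, or_false] at h
           subst h
           assumption)

/-- Exponent sums weighted by `f`. -/
def wt (f : ℕ → ℤ) (w : Word) : Multiplicative ℤ := ev (fun i => Multiplicative.ofAdd (f i)) w

lemma wt_zw (f : ℕ → ℤ) (D i j k : ℕ) : wt f (zw D i j k) = 1 := by
  simp only [wt, zw, ev_append, ev_rep, ev_cons_true, ev_cons_false, ev_nil]
  apply Multiplicative.toAdd.injective
  simp only [toAdd_mul, toAdd_pow, toAdd_inv, toAdd_ofAdd, toAdd_one, nsmul_eq_mul]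
  push_cast
  ring

lemma wt_univ (f : ℕ → ℤ) (D n m : ℕ) : wt f (univ D n m) = 1 := by
  induction m with
  | zero => rfl
  | succ m ih =>
    have := wt_zw f D (m % n) (m / n % n) (m / n / n % n)
    unfold wt at *
    rw [univ_succ, ev_append, ev_rep, ih, zi, this]
    simp

variable {G V : Type*} [Group G] [MulAction G V] {T : SimpleGraph V}

lemma sg_word (h : GTree G T) {a b : V} (hab : a ≠ b) (o : V) (x : ℕ → G) (w : Word) :
    (wt (fun i => sg G T a b o (x i • o)) w).toAdd - 3 * w.length ≤ sg G T a b o (ev x w • o) := by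
  induction w with
  | nil => simp [wt, sg_self h hab]
  | cons p w ih =>
    simp only [wt] at ih ⊢
    rcases p with ⟨i, _ | _⟩
    · have a1 := (sg_mul h hab o (x i)⁻¹ (ev x w)).2
      have a2 := sg_inv h hab o (x i)
      simp only [ev_cons_false, toAdd_mul, toAdd_inv, toAdd_ofAdd, List.length_cons]
      push_cast
      omega
    · have a1 := (sg_mul h hab o (x i) (ev x w)).2
      simp only [ev_cons_true, toAdd_mul, toAdd_ofAdd, List.length_cons]
      push_cast
      omega

lemma univ_ne_one (h : GTree G T) {K C : ℕ} (hA : Acyl G T K C) (hG : NoTwo G) {n : ℕ}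
    (s : Fin n → G) (hs : Subgroup.closure (Set.range s) = ⊤) (hfix : ∀ v : V, ∃ i, s i • v ≠ v) :
    ev (ext s) (univ (K + C + 1) n (n * n * n)) ≠ 1 := by
  obtain ⟨o⟩ : Nonempty V := h.tree.connected.nonempty
  obtain ⟨i, j, l, L, hL, hd⟩ := exists_scale h s hfix
  obtain ⟨k, hk⟩ := exists_not_st hG hL s hs
  have hn : 0 < n := i.pos
  have hgood : ∃ m < n * n * n, Good T (ev (ext s) (zi (K + C + 1) n m)) := by
    refine ⟨i + n * (j + n * k), ?_, ?_⟩
    · have a1 : j + n * k + 1 ≤ n * n := by
        have := j.2
        have := Nat.mul_le_mul_left n (show k + 1 ≤ n from k.2)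
        nlinarith
      have := i.2
      have := Nat.mul_le_mul_left n a1
      nlinarith
    · have e1 : (i + n * (j + n * k)) / n = j + n * k := by
        rw [Nat.add_mul_div_left _ _ hn, Nat.div_eq_of_lt i.2, zero_add]
      have e2 : (j + n * k) / n = k := by
        rw [Nat.add_mul_div_left _ _ hn, Nat.div_eq_of_lt j.2, zero_add]
      have := pattern_good h hA hL hk (hd k)
      simp only [zi, zw, e1, e2, Nat.add_mul_mod_self_left, Nat.mod_eq_of_lt i.2,
        Nat.mod_eq_of_lt j.2, Nat.mod_eq_of_lt k.2, ev_append, ev_rep, ev_cons_true, ev_cons_false,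
        ev_nil, ext_val, mul_one]
      simpa only [mul_inv_rev, mul_assoc] using this
  have key : ∀ m ≤ n * n * n, (∀ m' < m, ¬ Good T (ev (ext s) (zi (K + C + 1) n m'))) ∨
      ∃ a b : V, a ≠ b ∧ 12 * ((n * n * n : ℕ) - (m : ℤ)) + 1 ≤
        sg G T a b o (ev (ext s) (univ (K + C + 1) n m) • o) := by
    intro m
    induction m with
    | zero => exact fun _ => Or.inl fun _ h => absurd h (Nat.not_lt_zero _)
    | succ m ih =>
      intro hm
      by_cases hz : Good T (ev (ext s) (zi (K + C + 1) n m))
      · obtain ⟨a, b, hab, H⟩ := good_big h hA hz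
        refine Or.inr ⟨a, b, hab, ?_⟩
        have a1 := H o (3 * (univ (K + C + 1) n m).length + (12 * (n * n * n) + 10))
        have a2 := sg_word h hab o (ext s) (univ (K + C + 1) n m)
        rw [wt_univ, toAdd_one] at a2
        rw [univ_succ, ev_append, ev_rep]
        have a3 := (sg_mul h hab o (ev (ext s) (univ (K + C + 1) n m))
          (ev (ext s) (zi (K + C + 1) n m) ^ ((K + C + 1) *
            (3 * (univ (K + C + 1) n m).length + (12 * (n * n * n) + 10))))).2
        omega
      · rcases ih (by omega) with H | ⟨a, b, hab, H⟩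
        · refine Or.inl fun m' hm' => ?_
          rcases Nat.lt_succ_iff_lt_or_eq.1 hm' with h1 | rfl
          · exact H m' h1
          · exact hz
        · refine Or.inr ⟨a, b, hab, ?_⟩
          rw [univ_succ, ev_append, ev_rep]
          have a1 := bad_bound h hz hab o ((K + C + 1) *
            (3 * (univ (K + C + 1) n m).length + (12 * (n * n * n) + 10)))
          have a3 := (sg_mul h hab o (ev (ext s) (univ (K + C + 1) n m))
            (ev (ext s) (zi (K + C + 1) n m) ^ ((K + C + 1) *
              (3 * (univ (K + C + 1) n m).length + (12 * (n * n * n) + 10))))).2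
          omega
  intro e
  rcases key _ le_rfl with H | ⟨a, b, hab, H⟩
  · obtain ⟨m, h1, h2⟩ := hgood
    exact H m h1 h2
  · rw [e, one_smul, sg_self h hab] at H
    omega

/-! ### Computability -/

lemma primrec_rep : Primrec₂ rep :=
  (Primrec.nat_rec' Primrec.fst (Primrec.const [])
    (Primrec.list_append.comp (Primrec.snd.comp Primrec.fst)
      (Primrec.snd.comp Primrec.snd)).to₂).of_eq fun _ => rfl

lemma primrec_zw {α : Type} [Primcodable α] {D i j k : α → ℕ} (hD : Primrec D) (hi : Primrec i)
    (hj : Primrec j) (hk : Primrec k) : Primrec fun a => zw (D a) (i a) (j a) (k a) := by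
  have one : ∀ {f : α → ℕ} (b : Bool), Primrec f → Primrec fun a => [(f a, b)] := fun b hf =>
    Primrec.list_cons.comp (hf.pair (Primrec.const b)) (Primrec.const [])
  have two : ∀ {f g : α → ℕ} (c : ℕ) (b : Bool), Primrec f → Primrec g →
      Primrec fun a => rep (c * D a) [(f a, b), (g a, b)] := fun c b hf hg =>
    primrec_rep.comp (Primrec.nat_mul.comp (Primrec.const c) hD)
      (Primrec.list_cons.comp (hf.pair (Primrec.const b)) (one b hg))
  have ap := @Primrec.list_append (ℕ × Bool) _
  exact ap.comp (two 700 false hj hi) (ap.comp (one true hk) (ap.comp (two 100 true hi hj)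
    (ap.comp (one false hk) (ap.comp (two 200 true hi hj) (ap.comp (one true hk)
      (ap.comp (two 400 true hi hj) (one false hk)))))))

lemma primrec_univ : Primrec fun a : ℕ × ℕ => univ a.1 a.2 (a.2 * a.2 * a.2) := by
  have c3 : Primrec fun a : ℕ × ℕ => a.2 * a.2 * a.2 :=
    Primrec.nat_mul.comp (Primrec.nat_mul.comp Primrec.snd Primrec.snd) Primrec.snd
  have hD : Primrec fun z : (ℕ × ℕ) × ℕ × Word => z.1.1 := Primrec.fst.comp Primrec.fst
  have hn : Primrec fun z : (ℕ × ℕ) × ℕ × Word => z.1.2 := Primrec.snd.comp Primrec.fst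
  have hm : Primrec fun z : (ℕ × ℕ) × ℕ × Word => z.2.1 := Primrec.fst.comp Primrec.snd
  have hW : Primrec fun z : (ℕ × ℕ) × ℕ × Word => z.2.2 := Primrec.snd.comp Primrec.snd
  have hz := primrec_zw hD (Primrec.nat_mod.comp hm hn)
    (Primrec.nat_mod.comp (Primrec.nat_div.comp hm hn) hn)
    (Primrec.nat_mod.comp (Primrec.nat_div.comp (Primrec.nat_div.comp hm hn) hn) hn)
  have he := Primrec.nat_mul.comp hD (Primrec.nat_add.comp
    (Primrec.nat_mul.comp (Primrec.const 3) (Primrec.list_length.comp hW))
    (Primrec.nat_add.comp (Primrec.nat_mul.comp (Primrec.const 12) (c3.comp Primrec.fst))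
      (Primrec.const 10)))
  exact (Primrec.nat_rec' c3 (Primrec.const [])
    (Primrec.list_append.comp hW (primrec_rep.comp he hz)).to₂).of_eq fun _ => rfl

def allB (n : ℕ) : List (List Bool) :=
  Nat.rec [[]] (fun _ L => L.map (true :: ·) ++ L.map (false :: ·)) n

lemma mem_allB (χ : List Bool) : χ ∈ allB χ.length := by
  induction χ with
  | nil => simp [allB]
  | cons b χ ih =>
    have : allB (b :: χ).length =
      (allB χ.length).map (true :: ·) ++ (allB χ.length).map (false :: ·) := rfl
    rw [this]
    cases b <;> simp [ih]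

lemma primrec_allB : Primrec allB := by
  have h : ∀ b : Bool, Primrec fun z : ℕ × ℕ × List (List Bool) => z.2.2.map (b :: ·) := fun b =>
    Primrec.list_map (Primrec.snd.comp Primrec.snd)
      (Primrec.list_cons.comp (Primrec.const b) Primrec.snd).to₂
  exact (Primrec.nat_rec' Primrec.id (Primrec.const [[]])
    (Primrec.list_append.comp (h true) (h false)).to₂).of_eq fun _ => rfl

/-- Generator `i` survives in a quotient of order two. -/
def Two (a : ℕ × List Word) (i : ℕ) : Prop :=
  ∃ χ ∈ allB a.1, χ.getD i false = true ∧ ∀ r ∈ a.2, par χ r = false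

lemma primrec_two : PrimrecRel Two := by
  have hx : Primrec₂ xor := Primrec.dom_bool₂ _
  have hp : Primrec fun z : Word × List Bool => par z.2 z.1 :=
    Primrec.list_foldr Primrec.fst (Primrec.const false)
      (hx.comp ((Primrec.list_getD false).comp (Primrec.snd.comp Primrec.fst)
        (Primrec.fst.comp (Primrec.fst.comp Primrec.snd))) (Primrec.snd.comp Primrec.snd)).to₂
  have h1 : PrimrecRel fun (r : Word) (χ : List Bool) => par χ r = false :=
    Primrec.eq.comp hp (Primrec.const false)
  have h2 : PrimrecRel fun (χ : List Bool) (y : List Word × ℕ) =>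
      χ.getD y.2 false = true ∧ ∀ r ∈ y.1, par χ r = false :=
    PrimrecPred.and (Primrec.eq.comp ((Primrec.list_getD false).comp Primrec.fst
      (Primrec.snd.comp Primrec.snd)) (Primrec.const true))
      (h1.forall_mem_list.comp (Primrec.fst.comp Primrec.snd) Primrec.fst)
  exact h2.exists_mem_list.comp (primrec_allB.comp (Primrec.fst.comp Primrec.fst))
    ((Primrec.snd.comp Primrec.fst).pair Primrec.snd)

open Classical in
noncomputable def pick (a : ℕ × List Word) (W : Word) (m : ℕ) : Word :=
  Nat.rec W (fun i w => if Two a i then [(i, true)] else w) m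

lemma pick_spec (a : ℕ × List Word) (W : Word) (m : ℕ) :
    (∃ i < m, Two a i ∧ pick a W m = [(i, true)]) ∨ ((∀ i < m, ¬ Two a i) ∧ pick a W m = W) := by
  classical
  induction m with
  | zero => exact Or.inr ⟨by simp, rfl⟩
  | succ m ih =>
    have e : pick a W (m + 1) = if Two a m then [(m, true)] else pick a W m := rfl
    by_cases h : Two a m
    · exact Or.inl ⟨m, by omega, h, by rw [e, if_pos h]⟩
    · rw [e, if_neg h]
      rcases ih with ⟨i, h1, h2⟩ | ⟨h1, h2⟩
      · exact Or.inl ⟨i, by omega, h2⟩
      · refine Or.inr ⟨fun i hi => ?_, h2⟩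
        rcases Nat.lt_succ_iff_lt_or_eq.1 hi with h3 | rfl
        · exact h1 i h3
        · exact h

lemma primrec_pick : Primrec fun z : (ℕ × List Word) × Word => pick z.1 z.2 z.1.1 := by
  classical
  have h1 : PrimrecPred fun z : ((ℕ × List Word) × Word) × ℕ × Word => Two z.1.1 z.2.1 :=
    primrec_two.comp (Primrec.fst.comp Primrec.fst) (Primrec.fst.comp Primrec.snd)
  exact (Primrec.nat_rec' (Primrec.fst.comp Primrec.fst) Primrec.snd
    (Primrec.ite h1 (Primrec.list_cons.comp ((Primrec.fst.comp Primrec.snd).pair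
      (Primrec.const true)) (Primrec.const [])) (Primrec.snd.comp Primrec.snd)).to₂).of_eq
    fun _ => rfl

end Pool.Agent.Lib.MP_edf429_lc.TreeQM
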